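import Mathlib

/-!
# Eigenclasses in exterior algebras
-/

namespace Pool.Agent.H925R2

open Module

/-- If `x` is in the span of eigenvectors and is an eigenvector itself, it is in the span of those
eigenvectors that have the same eigenvalue. -/
theorem mem_span_eigen {K M : Type*} [Field K] [AddCommGroup M] [Module K M] (Φ : M →ₗ[K] M)
    (T : Set M) (hT : ∀ t ∈ T, ∃ l : K, Φ t = l • t) (l₀ : K) (x : M)
    (hx : x ∈ Submodule.span K T) (hx₀ : Φ x = l₀ • x) :
    x ∈ Submodule.span K {t ∈ T | Φ t = l₀ • t} := by
  classical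
  set T₀ := {t ∈ T | Φ t = l₀ • t}
  set T₁ := {t ∈ T | ¬ Φ t = l₀ • t}
  have hTT : T = T₀ ∪ T₁ := by
    ext t
    simp only [T₀, T₁, Set.mem_union, Set.mem_ofPred_eq]
    tauto
  rw [hTT, Submodule.span_union] at hx
  obtain ⟨x₀, hx0, x₁, hx1, rfl⟩ := Submodule.mem_sup.1 hx
  have h0 : x₀ ∈ End.eigenspace Φ l₀ := by
    have : Submodule.span K T₀ ≤ End.eigenspace Φ l₀ := by
      rw [Submodule.span_le]
      rintro t ⟨_, ht⟩
      exact End.mem_eigenspace_iff.2 ht
    exact this hx0
  have h1 : x₁ ∈ End.eigenspace Φ l₀ := by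
    have h2 := End.mem_eigenspace_iff.2 hx₀
    have h3 := Submodule.sub_mem _ h2 h0
    simpa using h3
  have h1' : x₁ ∈ ⨆ l ≠ l₀, End.eigenspace Φ l := by
    have : Submodule.span K T₁ ≤ ⨆ l ≠ l₀, End.eigenspace Φ l := by
      rw [Submodule.span_le]
      rintro t ⟨ht, ht'⟩
      obtain ⟨l, hl⟩ := hT t ht
      have hne : l ≠ l₀ := by
        rintro rfl
        exact ht' hl
      exact Submodule.mem_iSup_of_mem l (Submodule.mem_iSup_of_mem hne
        (End.mem_eigenspace_iff.2 hl))
    exact this hx1
  have hdis := (End.eigenspaces_iSupIndep Φ) l₀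
  have hz : x₁ = 0 := by
    have := Submodule.disjoint_def.1 hdis x₁ h1 h1'
    exact this
  rw [hz, add_zero]
  exact hx0

section ext

variable {K V : Type*} [Field K] [AddCommGroup V] [Module K V]

open ExteriorAlgebra

theorem prod_mul_iota (l : List V) (v : V) :
    (l.map (fun w => ι K w)).prod * ι K v =
      (-1 : K) ^ l.length • (ι K v * (l.map (fun w => ι K w)).prod) := by
  induction l with
  | nil => simp
  | cons a l ih =>
    rw [List.map_cons, List.prod_cons, mul_assoc, ih, List.length_cons, pow_succ]
    have h : ι K a * ι K v = - (ι K v * ι K a) := eq_neg_of_add_eq_zero_left (ι_add_mul_swap a v)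
    rw [mul_smul_comm, ← mul_assoc, h, mul_neg, mul_one, neg_smul, ← mul_assoc, neg_mul, smul_neg]

/-- the degree two eigenclasses -/
def deg2 (F : V →ₗ[K] V) (q : K) : Set (ExteriorAlgebra K V) :=
  {y | y ∈ ⋀[K]^2 V ∧ ExteriorAlgebra.map F y = q • y}

theorem iota_mul_mem_deg2 (F : V →ₗ[K] V) (q a b : K) (v w : V) (hv : F v = a • v)
    (hw : F w = b • w) (hab : a * b = q) : ι K v * ι K w ∈ deg2 F q := by
  constructor
  · rw [exteriorPower, pow_two]
    exact Submodule.mul_mem_mul (LinearMap.mem_range_self _ _) (LinearMap.mem_range_self _ _)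
  · rw [map_mul, map_apply_ι, map_apply_ι, hv, hw, map_smul, map_smul, smul_mul_smul_comm, hab]

/-- A monomial of eigenvectors whose eigenvalues are balanced with respect to `x ↦ q / x` is a
product of degree two eigenclasses, up to sign. -/
theorem prod_mem_adjoin [DecidableEq K] (F : V →ₗ[K] V) (q : K)
    (E : Set K) (hE : ∀ x ∈ E, x ≠ 0 ∧ q / x ≠ x) :
    ∀ (n : ℕ) (L : List (V × K)), L.length = n → (∀ e ∈ L, e.2 ∈ E ∧ F e.1 = e.2 • e.1) →
      (∀ x ∈ E, (L.map Prod.snd).count x = (L.map Prod.snd).count (q / x)) →
      (L.map (fun e => ι K e.1)).prod ∈ Algebra.adjoin K (deg2 F q) := by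
  intro n
  induction n using Nat.strong_induction_on with
  | _ n ih =>
    intro L hLn hL hbal
    match L, hLn, hL, hbal with
    | [], _, _, _ => simp
    | e :: L', hLn, hL, hbal =>
      obtain ⟨heE, heF⟩ := hL e (List.mem_cons_self)
      obtain ⟨he0, hene⟩ := hE e.2 heE
      have h1 := hbal e.2 heE
      rw [List.map_cons, List.count_cons_self, List.count_cons_of_ne (by
        intro h; exact hene h.symm)] at h1
      have h2 : q / e.2 ∈ L'.map Prod.snd := by
        rw [← List.count_pos_iff]
        omega
      obtain ⟨e', he', hee'⟩ := List.mem_map.1 h2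
      obtain ⟨L1, L2, hLL⟩ := List.append_of_mem he'
      obtain ⟨he'E, he'F⟩ := hL e' (List.mem_cons_of_mem _ he')
      have hq' : e.2 * e'.2 = q := by
        rw [hee']; field_simp
      have hrest : ((L1 ++ L2).map (fun e => ι K e.1)).prod ∈ Algebra.adjoin K (deg2 F q) := by
        refine ih (L1 ++ L2).length ?_ (L1 ++ L2) rfl ?_ ?_
        · rw [← hLn, hLL]
          simp only [List.length_append, List.length_cons]
          omega
        · intro f hf
          apply hL
          rw [hLL]
          simp only [List.mem_cons, List.mem_append] at hf ⊢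
          tauto
        · intro x hx
          obtain ⟨hx0, hxne⟩ := hE x hx
          have h3 := hbal x hx
          rw [hLL] at h3
          simp only [List.map_cons, List.map_append, List.count_cons, List.count_append] at h3 ⊢
          have h4 : (e.2 == x) = (e'.2 == q / x) := by
            rw [hee']
            by_cases h : e.2 = x
            · simp [h]
            · have : q / e.2 ≠ q / x := by
                intro h'
                apply h
                have hq0 : q ≠ 0 := by
                  rw [← hq']
                  exact mul_ne_zero he0 (hE e'.2 he'E).1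
                field_simp at h'
                exact h'.symm
              simp [h, this]
          have h5 : (e'.2 == x) = (e.2 == q / x) := by
            rw [hee']
            by_cases h : e.2 = q / x
            · have : q / e.2 = x := by
                have hq0 : q ≠ 0 := by
                  rw [← hq']
                  exact mul_ne_zero he0 (hE e'.2 he'E).1
                rw [h]; field_simp
              simp [h]
              rw [← h, this]
            · have : q / e.2 ≠ x := by
                intro h'
                apply h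
                rw [← h']
                have hq0 : q ≠ 0 := by
                  rw [← hq']
                  exact mul_ne_zero he0 (hE e'.2 he'E).1
                field_simp
              simp [h, this]
          rw [h4, h5] at h3
          omega
      have hkey : ((e :: L').map (fun e => ι K e.1)).prod =
          (-1 : K) ^ L1.length • ((ι K e.1 * ι K e'.1) *
            ((L1 ++ L2).map (fun e => ι K e.1)).prod) := by
        have hp := prod_mul_iota (K := K) (L1.map Prod.fst) e'.1
        rw [List.map_map, List.length_map] at hp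
        have hp' : (L1.map (fun e => ι K e.1)).prod * ι K e'.1 =
            (-1 : K) ^ L1.length • (ι K e'.1 * (L1.map (fun e => ι K e.1)).prod) := hp
        rw [List.map_cons, List.prod_cons, hLL, List.map_append, List.prod_append, List.map_cons,
          List.prod_cons, List.map_append, List.prod_append]
        calc ι K e.1 * ((L1.map (fun e => ι K e.1)).prod *
              (ι K e'.1 * (L2.map (fun e => ι K e.1)).prod))
            = ι K e.1 * (((L1.map (fun e => ι K e.1)).prod * ι K e'.1) *
              (L2.map (fun e => ι K e.1)).prod) := by simp only [mul_assoc]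
          _ = _ := by
            rw [hp']
            simp only [smul_mul_assoc, mul_smul_comm, mul_assoc]
      rw [hkey]
      refine Subalgebra.smul_mem _ (Subalgebra.mul_mem _ (Algebra.subset_adjoin ?_) hrest) _
      exact iota_mul_mem_deg2 F q e.2 e'.2 e.1 e'.1 heF he'F hq'

/-- If all multiplicative relations `(∏ μ_j) ^ s = (q ^ m) ^ s` (`2 m` factors) between elements of
`E` are balanced, then all eigenclasses of `F ^ s` of eigenvalue `(q ^ m) ^ s` in degree `2 m` are
polynomials in the eigenclasses of `F` of eigenvalue `q` in degree two. -/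
theorem mem_adjoin_of_balanced [DecidableEq K] (F : V →ₗ[K] V) (q : K)
    (E : Set K) (hE : ∀ x ∈ E, x ≠ 0 ∧ q / x ≠ x)
    (hspan : Submodule.span K {v : V | ∃ μ ∈ E, F v = μ • v} = ⊤) (m s : ℕ)
    (hbal : ∀ L : List K, L.length = 2 * m → (∀ x ∈ L, x ∈ E) → L.prod ^ s = (q ^ m) ^ s →
      ∀ x ∈ E, L.count x = L.count (q / x))
    (x : ExteriorAlgebra K V) (hx : x ∈ ⋀[K]^(2 * m) V)
    (hFx : ExteriorAlgebra.map (F ^ s) x = (q ^ m) ^ s • x) :
    x ∈ Algebra.adjoin K (deg2 F q) := by
  classical
  set E' : Set V := {v : V | ∃ μ ∈ E, F v = μ • v} with hs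
  have hsp := exteriorPower.ιMulti_span_fixedDegree_of_span_eq_top K (2 * m) V hspan
  set T : Set (ExteriorAlgebra K V) :=
    {y | ∃ a : Fin (2 * m) → V, (∀ j, a j ∈ E') ∧ ExteriorAlgebra.ιMulti K (2 * m) a = y} with hT
  have hTspan : x ∈ Submodule.span K T := by
    rw [← hsp] at hx
    refine Submodule.span_mono ?_ hx
    rintro _ ⟨a, ha, rfl⟩
    exact ⟨a, fun j => ha ⟨j, rfl⟩, rfl⟩
  have hpow : ∀ (v : V) (μ : K), F v = μ • v → (F ^ s) v = μ ^ s • v := by
    intro v μ h
    induction s with
    | zero => simp
    | succ s ih =>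
      rw [pow_succ', Module.End.mul_apply]
      have ih' : (F ^ s) v = μ ^ s • v := by
        clear hFx hbal ih
        induction s with
        | zero => simp
        | succ s ih => rw [pow_succ', Module.End.mul_apply, ih, map_smul, h, smul_smul, pow_succ]
      rw [ih', map_smul, h, smul_smul, pow_succ]
  have hTeig : ∀ a : Fin (2 * m) → V, (∀ j, a j ∈ E') → ∃ μ : Fin (2 * m) → K,
      (∀ j, μ j ∈ E ∧ F (a j) = μ j • a j) ∧
      ExteriorAlgebra.map (F ^ s) (ExteriorAlgebra.ιMulti K (2 * m) a) =
        (∏ j, μ j) ^ s • ExteriorAlgebra.ιMulti K (2 * m) a := by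
    intro a ha
    choose μ hμ1 hμ2 using ha
    refine ⟨μ, fun j => ⟨hμ1 j, hμ2 j⟩, ?_⟩
    rw [ExteriorAlgebra.map_apply_ιMulti]
    have : (⇑(F ^ s) ∘ a) = fun j => μ j ^ s • a j := by
      funext j
      exact hpow _ _ (hμ2 j)
    rw [this, ← Finset.prod_pow]
    exact AlternatingMap.map_smul_univ _ _ _
  have hmem := mem_span_eigen (ExteriorAlgebra.map (F ^ s)).toLinearMap T (by
    rintro t ⟨a, ha, rfl⟩
    obtain ⟨μ, _, h⟩ := hTeig a ha
    exact ⟨_, h⟩) ((q ^ m) ^ s) x hTspan hFx
  have hle : Submodule.span K
      {t ∈ T | (ExteriorAlgebra.map (F ^ s)).toLinearMap t = (q ^ m) ^ s • t} ≤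
      Subalgebra.toSubmodule (Algebra.adjoin K (deg2 F q)) := by
    rw [Submodule.span_le]
    rintro t ⟨⟨a, ha, rfl⟩, ht⟩
    obtain ⟨μ, hμ, h⟩ := hTeig a ha
    by_cases h0 : ExteriorAlgebra.ιMulti K (2 * m) a = 0
    · rw [h0]; exact Submodule.zero_mem _
    have hprod : (∏ j, μ j) ^ s = (q ^ m) ^ s := by
      have h1 : (∏ j, μ j) ^ s • ExteriorAlgebra.ιMulti K (2 * m) a =
        (q ^ m) ^ s • ExteriorAlgebra.ιMulti K (2 * m) a := by rw [← h]; exact ht
      exact smul_left_injective K h0 h1
    have h2 := prod_mem_adjoin F q E hE (2 * m) (List.ofFn fun j => (a j, μ j)) (by simp) (by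
      intro e he
      rw [List.mem_ofFn] at he
      obtain ⟨j, rfl⟩ := he
      exact hμ j) (by
      intro y hy
      have h3 : (List.ofFn fun j => (a j, μ j)).map Prod.snd = List.ofFn μ := by
        rw [List.map_ofFn]; rfl
      rw [h3]
      refine hbal (List.ofFn μ) (by simp) ?_ ?_ y hy
      · intro z hz
        rw [List.mem_ofFn] at hz
        obtain ⟨j, rfl⟩ := hz
        exact (hμ j).1
      · rw [List.prod_ofFn, hprod])
    have h3 : (List.ofFn fun j => (a j, μ j)).map (fun e => ι K e.1) =
        List.ofFn fun j => ι K (a j) := by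
      rw [List.map_ofFn]; rfl
    rw [h3] at h2
    rw [ExteriorAlgebra.ιMulti_apply]
    exact h2
  exact hle hmem

end ext

end Pool.Agent.H925R2
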