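import Mathlib

/-!
# Combinatorial core: relations on finite sets with an involution

`R` is a finite set with a fixed point free involution `inv`, a finite group `G` acts transitively
on `R` and commutes with `inv`.  A *half system* is a set containing exactly one element of each
pair `{x, inv x}`.
-/

namespace Pool.Agent.H925R2

open MulAction

/-- A finite group acting transitively on a set of prime power cardinality `r ^ k`: every Sylow
`r`-subgroup acts transitively. -/
theorem sylow_transitive {G B : Type*} [Group G] [Finite G] [MulAction G B] [Finite B]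
    [MulAction.IsPretransitive G B] (r k : ℕ) [Fact r.Prime] (hB : Nat.card B = r ^ k)
    (S : Sylow r G) (x y : B) : ∃ s : S, s • x = y := by
  classical
  have hH : (stabilizer G x).index = r ^ k := by
    rw [index_stabilizer_of_transitive, hB]
  have h1 : (stabilizer G x ⊓ (S : Subgroup G)).relIndex (S : Subgroup G) *
      (S : Subgroup G).index = (stabilizer G x ⊓ (S : Subgroup G)).index :=
    Subgroup.relIndex_mul_index inf_le_right
  have h2 : (stabilizer G x ⊓ (S : Subgroup G)).relIndex (stabilizer G x) *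
      (stabilizer G x).index = (stabilizer G x ⊓ (S : Subgroup G)).index :=
    Subgroup.relIndex_mul_index inf_le_left
  have h3 : r ^ k ∣ (stabilizer G x ⊓ (S : Subgroup G)).relIndex (S : Subgroup G) := by
    have h4 : r ^ k ∣ (stabilizer G x ⊓ (S : Subgroup G)).relIndex (S : Subgroup G) *
        (S : Subgroup G).index := by
      rw [h1, ← h2, hH]
      exact Dvd.intro_left _ rfl
    have h5 : Nat.Coprime (r ^ k) (S : Subgroup G).index :=
      (((Fact.out : r.Prime).coprime_iff_not_dvd).2 S.not_dvd_index).pow_left k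
    exact h5.dvd_of_dvd_mul_right h4
  rw [Subgroup.inf_relIndex_right] at h3
  have h6 : (stabilizer G x).relIndex (S : Subgroup G) = Nat.card (orbit S x) := by
    rw [← Nat.card_congr (orbitEquivQuotientStabilizer S x).symm]
    rfl
  rw [h6] at h3
  have hpos : 0 < Nat.card (orbit S x) := by
    have : Nonempty (orbit S x) := ⟨⟨x, mem_orbit_self x⟩⟩
    exact Nat.card_pos
  have h7 : r ^ k ≤ Nat.card (orbit S x) := Nat.le_of_dvd hpos h3
  have h8 : orbit S x = Set.univ := by
    apply Set.eq_of_subset_of_ncard_le (Set.subset_univ _)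
    rw [Set.ncard_univ, hB]
    exact h7
  have : y ∈ orbit S x := by rw [h8]; trivial
  exact this

section core

variable {R : Type*} [Fintype R] (inv : R → R)

/-- A half system: exactly one element of each pair `{x, inv x}`. -/
def IsHalf (Φ : Finset R) : Prop := ∀ x, x ∈ Φ ↔ inv x ∉ Φ

variable {inv}

theorem exists_isHalf (hinv : ∀ x, inv (inv x) = x) (hne : ∀ x, inv x ≠ x) :
    ∃ Φ : Finset R, IsHalf inv Φ := by
  classical
  let e := Fintype.equivFin R
  refine ⟨Finset.univ.filter (fun x => e x < e (inv x)), fun x => ?_⟩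
  simp only [Finset.mem_filter, Finset.mem_univ, true_and, hinv, not_lt]
  constructor
  · exact le_of_lt
  · intro h
    refine lt_of_le_of_ne h fun h' => hne x ?_
    exact (e.injective h').symm

theorem IsHalf.sum_symm [DecidableEq R] (hinv : ∀ x, inv (inv x) = x)
    {Φ : Finset R} (hΦ : IsHalf inv Φ) {M : Type*} [AddCommMonoid M] (F : R → M)
    (hF : ∀ x, F (inv x) = F x) : ∑ x, F x = ∑ x ∈ Φ, F x + ∑ x ∈ Φ, F x := by
  have h1 : ∑ x, F x = ∑ x ∈ Φ, F x + ∑ x ∈ Φᶜ, F x := by
    rw [Finset.sum_add_sum_compl]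
  rw [h1]
  congr 1
  refine Finset.sum_nbij' inv inv ?_ ?_ ?_ ?_ ?_
  · intro x hx
    rw [Finset.mem_compl, hΦ x, not_not] at hx
    exact hx
  · intro x hx
    rw [Finset.mem_compl, hΦ (inv x), hinv, not_not]
    exact hx
  · intro x _; exact hinv x
  · intro x _; exact hinv x
  · intro x _; exact (hF x).symm

theorem IsHalf.card [DecidableEq R] (hinv : ∀ x, inv (inv x) = x)
    {Φ : Finset R} (hΦ : IsHalf inv Φ) : Fintype.card R = 2 * Φ.card := by
  have := hΦ.sum_symm hinv (fun _ => 1) (fun _ => rfl)
  simp only [Finset.sum_const, smul_eq_mul, mul_one, Finset.card_univ] at this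
  omega

variable {G : Type*} [Group G] [Finite G] [MulAction G R]

/-- The pairs `{x, inv x}`. -/
def pairSetoid (hinv : ∀ x, inv (inv x) = x) : Setoid R where
  r x y := x = y ∨ x = inv y
  iseqv := by
    refine ⟨fun x => Or.inl rfl, ?_, ?_⟩
    · rintro x y (h | h)
      · exact Or.inl h.symm
      · right; rw [h, hinv]
    · rintro x y z (h | h) (h' | h')
      · left; rw [h, h']
      · right; rw [h, h']
      · right; rw [h, h']
      · left; rw [h, h', hinv]

theorem card_pairs [DecidableEq R] (hinv : ∀ x, inv (inv x) = x) (hne : ∀ x, inv x ≠ x) :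
    Fintype.card R = 2 * Nat.card (Quotient (pairSetoid hinv)) := by
  obtain ⟨Φ, hΦ⟩ := exists_isHalf hinv hne
  rw [hΦ.card hinv]
  congr 1
  have : Nat.card Φ = Nat.card (Quotient (pairSetoid hinv)) := by
    refine Nat.card_congr (Equiv.ofBijective (fun x => Quotient.mk (pairSetoid hinv) x.1) ⟨?_, ?_⟩)
    · rintro ⟨x, hx⟩ ⟨y, hy⟩ h
      have h' : x = y ∨ x = inv y := Quotient.exact h
      rcases h' with h' | h'
      · exact Subtype.ext h'
      · exfalso
        rw [h'] at hx
        exact ((hΦ y).1 hy) hx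
    · intro q
      obtain ⟨x, rfl⟩ := Quotient.exists_rep q
      by_cases hx : x ∈ Φ
      · exact ⟨⟨x, hx⟩, rfl⟩
      · rw [hΦ x, not_not] at hx
        refine ⟨⟨inv x, hx⟩, ?_⟩
        exact Quotient.sound (Or.inr rfl)
  rw [← this]
  simp

theorem sylow_pairs [DecidableEq R] [MulAction.IsPretransitive G R]
    (hinv : ∀ x, inv (inv x) = x) (hne : ∀ x, inv x ≠ x)
    (hG : ∀ (g : G) (x : R), g • inv x = inv (g • x))
    (r k : ℕ) [Fact r.Prime] (hcard : Fintype.card R = 2 * r ^ k) (S : Sylow r G) (x y : R) :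
    ∃ s : S, s • x = y ∨ s • x = inv y := by
  have hB : Nat.card (Quotient (pairSetoid hinv)) = r ^ k := by
    have := card_pairs hinv hne
    omega
  let _ : SMul G (Quotient (pairSetoid hinv)) :=
    ⟨fun g => Quotient.map (fun x => g • x) (by
      rintro a b (h | h)
      · exact Or.inl (by rw [h])
      · exact Or.inr (by rw [h, hG]))⟩
  have hsm : ∀ (g : G) (x : R), g • (Quotient.mk (pairSetoid hinv) x) =
      Quotient.mk (pairSetoid hinv) (g • x) := fun g x => rfl
  let _ : MulAction G (Quotient (pairSetoid hinv)) :=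
    { one_smul := by
        intro q
        obtain ⟨x, rfl⟩ := Quotient.exists_rep q
        rw [hsm, one_smul]
      mul_smul := by
        intro g h q
        obtain ⟨x, rfl⟩ := Quotient.exists_rep q
        rw [hsm, hsm, hsm, mul_smul] }
  have _ : MulAction.IsPretransitive G (Quotient (pairSetoid hinv)) := by
    refine ⟨fun a b => ?_⟩
    obtain ⟨x, rfl⟩ := Quotient.exists_rep a
    obtain ⟨y, rfl⟩ := Quotient.exists_rep b
    obtain ⟨g, hg⟩ := MulAction.exists_smul_eq G x y
    exact ⟨g, by rw [hsm, hg]⟩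
  obtain ⟨s, hs⟩ := sylow_transitive r k hB S (Quotient.mk (pairSetoid hinv) x)
    (Quotient.mk (pairSetoid hinv) y)
  refine ⟨s, ?_⟩
  have h : Quotient.mk (pairSetoid hinv) ((s : G) • x) = Quotient.mk (pairSetoid hinv) y := hs
  exact Quotient.exact h

/-- **Core theorem.**  `c` is an antisymmetric integral relation for all translates of the
antisymmetric vector `u`; if no half system has `u`-sum divisible by `r`, where
`|R| = 2 r ^ k`, then `c = 0`. -/
theorem core [DecidableEq R] [MulAction.IsPretransitive G R]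
    (hinv : ∀ x, inv (inv x) = x) (hne : ∀ x, inv x ≠ x)
    (hG : ∀ (g : G) (x : R), g • inv x = inv (g • x))
    (r k : ℕ) [Fact r.Prime] (hcard : Fintype.card R = 2 * r ^ k)
    (u c : R → ℤ) (hu : ∀ x, u (inv x) = -u x) (hc : ∀ x, c (inv x) = -c x)
    (hΦ : ∀ Φ : Finset R, IsHalf inv Φ → ¬ (r : ℤ) ∣ ∑ x ∈ Φ, u x)
    (hrel : ∀ g : G, ∑ x, c x * u (g • x) = 0) : ∀ x, c x = 0 := by
  classical
  by_contra hcon
  push Not at hcon
  obtain ⟨x₀, hx₀⟩ := hcon
  -- divide by the gcd
  obtain ⟨c', hc1, hc2⟩ := Finset.extract_gcd (s := (Finset.univ : Finset R)) c ⟨x₀, Finset.mem_univ _⟩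
  set d := Finset.univ.gcd c with hd
  have hd0 : d ≠ 0 := by
    intro h
    apply hx₀
    rw [hc1 x₀ (Finset.mem_univ _), h, zero_mul]
  have hc'anti : ∀ x, c' (inv x) = -c' x := by
    intro x
    have := hc x
    rw [hc1 x (Finset.mem_univ _), hc1 (inv x) (Finset.mem_univ _)] at this
    apply mul_left_cancel₀ hd0
    rw [this]; ring
  have hc'rel : ∀ g : G, ∑ x, c' x * u (g • x) = 0 := by
    intro g
    apply mul_left_cancel₀ hd0
    rw [mul_zero, Finset.mul_sum, ← hrel g]
    refine Finset.sum_congr rfl fun x _ => ?_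
    rw [hc1 x (Finset.mem_univ _)]; ring
  have hc'half : ∀ (g : G) (Φ : Finset R), IsHalf inv Φ → ∑ x ∈ Φ, c' x * u (g • x) = 0 := by
    intro g Φ hΦ'
    have := hΦ'.sum_symm hinv (fun x => c' x * u (g • x)) (fun x => by
      simp only [hc'anti, hG, hu]; ring)
    rw [hc'rel g] at this
    omega
  have hnd : ∃ x, ¬ (r : ℤ) ∣ c' x := by
    by_contra hall
    push Not at hall
    have : (r : ℤ) ∣ Finset.univ.gcd c' := Finset.dvd_gcd fun x _ => hall x
    rw [hc2] at this
    have h2 := Int.isUnit_iff_natAbs_eq.1 (isUnit_of_dvd_one this)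
    simp only [Int.natAbs_natCast] at h2
    exact (Fact.out : r.Prime).one_lt.ne' h2
  -- the space of relations mod r
  let W : AddSubgroup (R → ZMod r) :=
    { carrier := {f | (∀ x, f (inv x) = -f x) ∧
        ∀ (g : G) (Φ : Finset R), IsHalf inv Φ → ∑ x ∈ Φ, f x * ((u (g • x) : ℤ) : ZMod r) = 0}
      zero_mem' := by
        refine ⟨fun x => by simp, fun g Φ _ => by simp⟩
      add_mem' := by
        rintro a b ⟨ha1, ha2⟩ ⟨hb1, hb2⟩
        refine ⟨fun x => by simp only [Pi.add_apply, ha1, hb1]; ring, fun g Φ hh => ?_⟩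
        simp only [Pi.add_apply, add_mul, Finset.sum_add_distrib, ha2 g Φ hh, hb2 g Φ hh, add_zero]
      neg_mem' := by
        rintro a ⟨ha1, ha2⟩
        refine ⟨fun x => by simp only [Pi.neg_apply, ha1], fun g Φ hh => ?_⟩
        simp only [Pi.neg_apply, neg_mul, Finset.sum_neg_distrib, ha2 g Φ hh, neg_zero] }
  have hWsmul : ∀ (s : G) (f : R → ZMod r), f ∈ W → (fun x => f (s⁻¹ • x)) ∈ W := by
    rintro s f ⟨hf1, hf2⟩
    refine ⟨fun x => ?_, fun g Φ hh => ?_⟩
    · simp only [hG, hf1]
    · have h1 := hf2 (g * s) (Φ.image (fun x => s⁻¹ • x)) (by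
        intro x
        simp only [Finset.mem_image, not_exists, not_and]
        constructor
        · rintro ⟨y, hy, rfl⟩ z hz hzy
          have : z = inv y := by
            have h := congrArg (fun t => s • t) hzy
            simpa [hG] using h
          rw [this] at hz
          exact ((hh y).1 hy) hz
        · intro h
          refine ⟨s • x, ?_, by simp⟩
          rw [hh (s • x)]
          intro h'
          exact h _ h' (by rw [hG]; simp))
      rw [Finset.sum_image (by
        intro a _ b _ hab
        exact smul_left_cancel _ hab)] at h1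
      simp only [mul_smul, smul_inv_smul] at h1
      exact h1
  obtain ⟨S⟩ : Nonempty (Sylow r G) := inferInstance
  let _ : MulAction S W :=
    { smul := fun s f => ⟨fun x => f.1 ((s : G)⁻¹ • x), hWsmul s f.1 f.2⟩
      one_smul := by
        intro f
        apply Subtype.ext
        funext x
        change f.1 (((1 : S) : G)⁻¹ • x) = f.1 x
        simp
      mul_smul := by
        intro a b f
        apply Subtype.ext
        funext x
        change f.1 (((a * b : S) : G)⁻¹ • x) = f.1 ((b : G)⁻¹ • ((a : G)⁻¹ • x))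
        rw [← mul_smul]
        simp }
  have hcW : (fun x => ((c' x : ℤ) : ZMod r)) ∈ W := by
    refine ⟨fun x => by simp [hc'anti], fun g Φ hh => ?_⟩
    have := hc'half g Φ hh
    have h2 := congrArg (fun t : ℤ => (t : ZMod r)) this
    simpa using h2
  have hWne : Nontrivial W := by
    obtain ⟨x, hx⟩ := hnd
    refine ⟨⟨⟨_, hcW⟩, 0, fun h => hx ?_⟩⟩
    have h2 : (fun x => ((c' x : ℤ) : ZMod r)) = 0 := congrArg Subtype.val h
    have h3 := congrFun h2 x
    simpa [ZMod.intCast_zmod_eq_zero_iff_dvd] using h3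
  have hWcard : r ∣ Nat.card W := by
    have h1 : Nat.card W ∣ r ^ (Fintype.card R) := by
      have := W.card_addSubgroup_dvd_card
      rwa [Nat.card_eq_fintype_card (α := R → ZMod r), Fintype.card_fun, ZMod.card] at this
    obtain ⟨m, hm, hm2⟩ := (Nat.dvd_prime_pow (Fact.out : r.Prime)).1 h1
    rw [hm2]
    apply dvd_pow_self
    rintro rfl
    have h3 : 1 < Nat.card W := Finite.one_lt_card
    rw [hm2, pow_zero] at h3
    exact absurd h3 (lt_irrefl _)
  obtain ⟨f, hf, hf0⟩ := S.isPGroup'.exists_fixed_point_of_prime_dvd_card_of_fixed_point W hWcard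
    (a := (0 : W)) (by
      intro s
      apply Subtype.ext
      funext x
      rfl)
  have hffix : ∀ (s : S) (x : R), f.1 ((s : G) • x) = f.1 x := by
    intro s x
    have h1 : s⁻¹ • f = f := hf s⁻¹
    have h2 := congrFun (congrArg Subtype.val h1) x
    have h3 : f.1 ((((s⁻¹ : S) : G))⁻¹ • x) = f.1 x := h2
    simpa using h3
  have hanti := f.2.1
  obtain ⟨x₁, hx₁⟩ : ∃ x, f.1 x ≠ 0 := by
    by_contra hall
    push Not at hall
    apply hf0
    apply Subtype.ext
    funext x
    exact (hall x).symm
  have hpm : ∀ y, f.1 y = f.1 x₁ ∨ f.1 y = -f.1 x₁ := by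
    intro y
    obtain ⟨s, hs | hs⟩ := sylow_pairs hinv hne hG r k hcard S x₁ y
    · left
      rw [← hffix s x₁]
      exact congrArg f.1 hs.symm
    · right
      have h1 : f.1 (inv y) = f.1 x₁ := by
        rw [← hffix s x₁]
        exact congrArg f.1 hs.symm
      rw [← h1, hanti, neg_neg]
  -- a half system on which `f` is constant
  obtain ⟨Φ, hΦh, hΦc⟩ : ∃ Φ : Finset R, IsHalf inv Φ ∧ ∀ x ∈ Φ, f.1 x = f.1 x₁ := by
    by_cases h2 : f.1 x₁ = -f.1 x₁
    · obtain ⟨Φ, hΦ'⟩ := exists_isHalf hinv hne
      refine ⟨Φ, hΦ', fun x _ => ?_⟩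
      rcases hpm x with h | h
      · exact h
      · rw [h, ← h2]
    · refine ⟨Finset.univ.filter (fun x => f.1 x = f.1 x₁), fun x => ?_, fun x hx => ?_⟩
      · simp only [Finset.mem_filter, Finset.mem_univ, true_and, hanti]
        constructor
        · intro h h'
          apply h2
          rw [h] at h'
          exact h'.symm
        · intro h
          rcases hpm x with h' | h'
          · exact h'
          · exfalso
            apply h
            rw [h', neg_neg]
      · simpa using hx
  apply hΦ Φ hΦh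
  have h1 := f.2.2 1 Φ hΦh
  rw [Finset.sum_congr rfl (fun x hx => by rw [hΦc x hx, one_smul]), ← Finset.mul_sum] at h1
  rcases mul_eq_zero.1 h1 with h | h
  · exact absurd h hx₁
  · rw [← ZMod.intCast_zmod_eq_zero_iff_dvd]
    push_cast
    exact h

end core

end Pool.Agent.H925R2
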