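import Mathlib
import Pool.Agent.H925R2.Core

/-!
# From Weil polynomials to relations on a finite set with an involution
-/

namespace Pool.Agent.H925R2

open Polynomial

theorem gal_pretransitive {F : Type*} [Field F] {f : F[X]} (hf : Irreducible f) :
    MulAction.IsPretransitive f.Gal (f.rootSet f.SplittingField) := by
  refine ⟨fun x y => ?_⟩
  have hx := minpoly.eq_of_irreducible hf (mem_rootSet.mp x.2).2
  have hy := minpoly.eq_of_irreducible hf (mem_rootSet.mp y.2).2
  obtain ⟨g, hg⟩ := (Normal.minpoly_eq_iff_mem_orbit f.SplittingField).mp (hy.symm.trans hx)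
  exact ⟨g, Subtype.ext hg⟩

section roots

variable {f : ℚ[X]} (hf : Irreducible f) {q : ℚ} (hq : 0 < q)
  (hweil : ∀ z : ℂ, aeval z f = 0 → ‖z‖ ^ 2 = (q : ℝ))

include hq hweil in
/-- In the splitting field, `x ↦ q / x` preserves the roots. -/
theorem root_inv (x : f.SplittingField) (hx : aeval x f = 0) :
    aeval ((q : f.SplittingField) / x) f = 0 := by
  let τ : f.SplittingField →ₐ[ℚ] ℂ := IsAlgClosed.lift
  have h1 : aeval (τ x) f = 0 := by
    rw [aeval_algHom_apply, hx, map_zero]
  have h2 := hweil _ h1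
  have h3 : aeval (starRingEnd ℂ (τ x)) f = 0 := by
    have h4 : aeval (((Complex.conjAe.restrictScalars ℚ : ℂ ≃ₐ[ℚ] ℂ) : ℂ →ₐ[ℚ] ℂ) (τ x)) f = 0 := by
      rw [aeval_algHom_apply, h1, map_zero]
    exact h4
  have hx0 : τ x ≠ 0 := by
    intro h
    rw [h, norm_zero] at h2
    have : (q : ℝ) = 0 := by rw [← h2]; simp
    exact hq.ne' (by exact_mod_cast this)
  have h5 : starRingEnd ℂ (τ x) = τ ((q : f.SplittingField) / x) := by
    rw [map_div₀, map_ratCast, eq_div_iff hx0, mul_comm, Complex.mul_conj,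
      Complex.normSq_eq_norm_sq, h2]
    simp
  rw [h5, aeval_algHom_apply] at h3
  exact (map_eq_zero τ).1 h3

include hq hweil in
theorem root_ne_zero (x : f.SplittingField) (hx : aeval x f = 0) : x ≠ 0 := by
  let τ : f.SplittingField →ₐ[ℚ] ℂ := IsAlgClosed.lift
  have h1 : aeval (τ x) f = 0 := by
    rw [aeval_algHom_apply, hx, map_zero]
  have h2 := hweil _ h1
  rintro rfl
  rw [map_zero, norm_zero] at h2
  have : (q : ℝ) = 0 := by rw [← h2]; simp
  exact hq.ne' (by exact_mod_cast this)

include hf in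
theorem root_inv_ne (hdeg : 2 < f.natDegree) (x : f.SplittingField) (hx : aeval x f = 0)
    (hx0 : x ≠ 0) : (q : f.SplittingField) / x ≠ x := by
  intro h
  have h1 : x ^ 2 = (q : f.SplittingField) := by
    rw [div_eq_iff hx0] at h
    rw [h]; ring
  have h2 : aeval x (X ^ 2 - C q : ℚ[X]) = 0 := by
    rw [map_sub, map_pow, aeval_X, aeval_C, h1]
    simp
  have h3 : (minpoly ℚ x) ∣ (X ^ 2 - C q : ℚ[X]) := minpoly.dvd ℚ x h2
  have h4 : (minpoly ℚ x).natDegree = f.natDegree := by
    rw [← minpoly.eq_of_irreducible hf hx, natDegree_mul_C]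
    exact inv_ne_zero (leadingCoeff_ne_zero.2 hf.ne_zero)
  have h5 : (X ^ 2 - C q : ℚ[X]) ≠ 0 := (monic_X_pow_sub_C q (by norm_num)).ne_zero
  have h6 := natDegree_le_of_dvd h3 h5
  rw [natDegree_X_pow_sub_C, h4] at h6
  omega

end roots

section bridge

variable {f : ℚ[X]} (hf : Irreducible f) {q : ℚ} (hq : 0 < q)
  (hweil : ∀ z : ℂ, aeval z f = 0 → ‖z‖ ^ 2 = (q : ℝ))

/-- The involution `x ↦ q / x` on the roots. -/
noncomputable def rinv : f.rootSet f.SplittingField → f.rootSet f.SplittingField :=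
  fun x => ⟨(q : f.SplittingField) / x.1, by
    rw [mem_rootSet]
    exact ⟨hf.ne_zero, root_inv hq hweil x.1 ((mem_rootSet.1 x.2).2)⟩⟩

theorem rinv_coe (x : f.rootSet f.SplittingField) :
    ((rinv hf hq hweil x : f.rootSet f.SplittingField) : f.SplittingField) =
      (q : f.SplittingField) / x.1 := rfl

theorem rinv_rinv (x : f.rootSet f.SplittingField) :
    rinv hf hq hweil (rinv hf hq hweil x) = x := by
  apply Subtype.ext
  rw [rinv_coe, rinv_coe]
  have hx0 := root_ne_zero hq hweil x.1 ((mem_rootSet.1 x.2).2)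
  have hq0 : (q : f.SplittingField) ≠ 0 := by exact_mod_cast hq.ne'
  field_simp

theorem rinv_ne (hdeg : 2 < f.natDegree) (x : f.rootSet f.SplittingField) :
    rinv hf hq hweil x ≠ x := by
  intro h
  have h1 := congrArg Subtype.val h
  rw [rinv_coe] at h1
  exact root_inv_ne hf hdeg x.1 ((mem_rootSet.1 x.2).2)
    (root_ne_zero hq hweil x.1 ((mem_rootSet.1 x.2).2)) h1

theorem smul_coe (g : f.Gal) (x : f.rootSet f.SplittingField) :
    ((g • x : f.rootSet f.SplittingField) : f.SplittingField) = g x.1 := rfl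

theorem smul_rinv (g : f.Gal) (x : f.rootSet f.SplittingField) :
    g • rinv hf hq hweil x = rinv hf hq hweil (g • x) := by
  apply Subtype.ext
  rw [smul_coe, rinv_coe, rinv_coe, smul_coe, map_div₀, map_ratCast]


include hf in
theorem card_roots : Fintype.card (f.rootSet f.SplittingField) = f.natDegree :=
  card_rootSet_eq_natDegree hf.separable (SplittingField.splits f)

/-- The number of times the embedded root occurs in a list. -/
noncomputable def cnt {Ω : Type*} [Field Ω] [CharZero Ω] [DecidableEq Ω]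
    (j : f.SplittingField →ₐ[ℚ] Ω) (L : List Ω) (x : f.rootSet f.SplittingField) : ℕ :=
  L.count (j x.1)

variable {Ω : Type*} [Field Ω] [CharZero Ω] [DecidableEq Ω] (j : f.SplittingField →ₐ[ℚ] Ω)

omit [DecidableEq Ω] in
include hf in
/-- every root in `Ω` comes from the splitting field -/
theorem exists_root_eq (y : Ω) (hy : aeval y f = 0) :
    ∃ x : f.rootSet f.SplittingField, j x.1 = y := by
  classical
  have h1 : y ∈ f.rootSet Ω := mem_rootSet.2 ⟨hf.ne_zero, hy⟩
  have h2 := (SplittingField.splits f).image_rootSet j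
  rw [← h2] at h1
  obtain ⟨x, hx, hxy⟩ := h1
  exact ⟨⟨x, hx⟩, hxy⟩

include hf in
/-- A list of roots is determined by the counting function. -/
theorem list_prod_eq {M : Type*} [CommMonoid M] (L : List Ω) (hL : ∀ y ∈ L, aeval y f = 0)
    (F : Ω → M) : (L.map F).prod = ∏ x : f.rootSet f.SplittingField, F (j x.1) ^ cnt j L x := by
  classical
  rw [Finset.prod_list_map_count]
  have hinj : Function.Injective (fun x : f.rootSet f.SplittingField => j x.1) :=
    fun a b h => Subtype.ext (j.injective h)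
  have h1 : L.toFinset ⊆ Finset.univ.image (fun x : f.rootSet f.SplittingField => j x.1) := by
    intro y hy
    obtain ⟨x, hx⟩ := exists_root_eq hf j y (hL y (List.mem_toFinset.1 hy))
    exact Finset.mem_image.2 ⟨x, Finset.mem_univ _, hx⟩
  rw [Finset.prod_subset h1 (by
    intro y _ hy
    rw [List.mem_toFinset] at hy
    rw [List.count_eq_zero_of_not_mem hy, pow_zero])]
  rw [Finset.prod_image (fun a _ b _ h => hinj h)]
  rfl

/-- The deviation of the slope of `α` from the middle, up to a constant: for `q` the product of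
conjugate roots it is `log ‖α‖ ^ 2 - log ‖q‖`. -/
noncomputable def dev (p : ℕ) [Fact p.Prime] (q : ℚ) (α : PadicAlgCl p) : ℝ :=
  2 * Real.log ‖α‖ - Real.log ‖(q : PadicAlgCl p)‖

theorem dev_inv (p : ℕ) [Fact p.Prime] {q : ℚ} (hq : q ≠ 0) (α : PadicAlgCl p) (hα : α ≠ 0) :
    dev p q ((q : PadicAlgCl p) / α) = - dev p q α := by
  unfold dev
  have hq' : (q : PadicAlgCl p) ≠ 0 := by exact_mod_cast hq
  rw [norm_div, Real.log_div (norm_ne_zero_iff.2 hq') (norm_ne_zero_iff.2 hα)]
  ring

include hf hq hweil in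
/-- The basic relation coming from one multiplicative relation and one embedding. -/
theorem sum_cnt_dev (p : ℕ) [Fact p.Prime] (e : f.SplittingField →ₐ[ℚ] PadicAlgCl p)
    (L : List Ω) (m s : ℕ) (hs : 0 < s) (hlen : L.length = 2 * m) (hL : ∀ y ∈ L, aeval y f = 0)
    (hprod : L.prod ^ s = ((q : Ω) ^ m) ^ s) (g : f.Gal) :
    ∑ x : f.rootSet f.SplittingField, (cnt j L x : ℝ) * dev p q (e (g • x : f.rootSet f.SplittingField).1) = 0 := by
  have h1 := list_prod_eq hf j L hL (fun y => y)
  rw [List.map_id'] at h1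
  have h2 : (∏ x : f.rootSet f.SplittingField, x.1 ^ cnt j L x) ^ s =
      ((q : f.SplittingField) ^ m) ^ s := by
    apply j.injective
    rw [map_pow, map_pow, map_prod, map_pow, map_ratCast, ← hprod, h1]
    congr 1
    exact Finset.prod_congr rfl fun x _ => map_pow _ _ _
  have h3 : ∏ x : f.rootSet f.SplittingField, ‖e (g x.1)‖ ^ cnt j L x = ‖(q : PadicAlgCl p)‖ ^ m := by
    have h4 := congrArg (fun t => ‖e (g t)‖) h2
    simp only [map_prod, map_pow, map_ratCast, norm_prod, norm_pow] at h4
    exact (pow_left_inj₀ (Finset.prod_nonneg fun x _ => pow_nonneg (norm_nonneg _) _)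
      (pow_nonneg (norm_nonneg _) _) hs.ne').1 h4
  have hsum : ∑ x : f.rootSet f.SplittingField, cnt j L x = 2 * m := by
    have h5 := list_prod_eq hf j L hL (fun _ => Multiplicative.ofAdd (1 : ℕ))
    rw [List.map_const', List.prod_replicate, hlen] at h5
    have h6 := congrArg Multiplicative.toAdd h5
    simpa using h6.symm
  have hne : ∀ x : f.rootSet f.SplittingField, e (g x.1) ≠ 0 := by
    intro x h
    apply root_ne_zero hq hweil x.1 ((mem_rootSet.1 x.2).2)
    have h5 : g x.1 = 0 := (map_eq_zero e).1 h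
    exact (map_eq_zero g).1 h5
  have h7 := congrArg Real.log h3
  rw [Real.log_prod (fun x _ => pow_ne_zero _ (norm_ne_zero_iff.2 (hne x))), Real.log_pow] at h7
  simp only [Real.log_pow] at h7
  simp only [dev, smul_coe]
  have h8 : ∀ x : f.rootSet f.SplittingField, (cnt j L x : ℝ) *
      (2 * Real.log ‖e (g x.1)‖ - Real.log ‖(q : PadicAlgCl p)‖) =
      2 * ((cnt j L x : ℝ) * Real.log ‖e (g x.1)‖) -
        (cnt j L x : ℝ) * Real.log ‖(q : PadicAlgCl p)‖ := fun x => by ring
  rw [Finset.sum_congr rfl (fun x _ => h8 x), Finset.sum_sub_distrib, ← Finset.mul_sum, h7,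
    ← Finset.sum_mul]
  have h9 : (∑ x : f.rootSet f.SplittingField, (cnt j L x : ℝ)) = 2 * m := by
    exact_mod_cast congrArg (Nat.cast (R := ℝ)) hsum
  rw [h9]
  ring

/-- The antisymmetrised counting function. -/
noncomputable def acnt (L : List Ω) (x : f.rootSet f.SplittingField) : ℤ :=
  (cnt j L x : ℤ) - cnt j L (rinv hf hq hweil x)

theorem acnt_rinv (L : List Ω) (x : f.rootSet f.SplittingField) :
    acnt hf hq hweil j L (rinv hf hq hweil x) = - acnt hf hq hweil j L x := by
  unfold acnt
  rw [rinv_rinv]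
  ring

theorem dev_rinv (p : ℕ) [Fact p.Prime] (e : f.SplittingField →ₐ[ℚ] PadicAlgCl p)
    (x : f.rootSet f.SplittingField) :
    dev p q (e (rinv hf hq hweil x).1) = - dev p q (e x.1) := by
  rw [rinv_coe, map_div₀, map_ratCast]
  apply dev_inv p hq.ne'
  intro h
  apply root_ne_zero hq hweil x.1 ((mem_rootSet.1 x.2).2)
  exact (map_eq_zero e).1 h

/-- The relation satisfied by the antisymmetrised counting function. -/
theorem sum_acnt_dev (p : ℕ) [Fact p.Prime] (e : f.SplittingField →ₐ[ℚ] PadicAlgCl p)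
    (L : List Ω) (m s : ℕ) (hs : 0 < s) (hlen : L.length = 2 * m) (hL : ∀ y ∈ L, aeval y f = 0)
    (hprod : L.prod ^ s = ((q : Ω) ^ m) ^ s) (g : f.Gal) :
    ∑ x : f.rootSet f.SplittingField, (acnt hf hq hweil j L x : ℝ) *
      dev p q (e (g • x : f.rootSet f.SplittingField).1) = 0 := by
  have h1 := sum_cnt_dev hf hq hweil j p e L m s hs hlen hL hprod g
  have h2 : ∑ x : f.rootSet f.SplittingField, (cnt j L (rinv hf hq hweil x) : ℝ) *
      dev p q (e (g • x : f.rootSet f.SplittingField).1) = 0 := by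
    have h3 : ∑ x : f.rootSet f.SplittingField, (cnt j L (rinv hf hq hweil x) : ℝ) *
        dev p q (e (g • x : f.rootSet f.SplittingField).1) =
        ∑ x : f.rootSet f.SplittingField, -((cnt j L x : ℝ) *
          dev p q (e (g • x : f.rootSet f.SplittingField).1)) := by
      refine Finset.sum_nbij' (rinv hf hq hweil) (rinv hf hq hweil) (fun _ _ => Finset.mem_univ _)
        (fun _ _ => Finset.mem_univ _) (fun x _ => rinv_rinv hf hq hweil x)
        (fun x _ => rinv_rinv hf hq hweil x) (fun x _ => ?_)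
      rw [smul_rinv, dev_rinv, mul_neg, neg_neg]
    rw [h3, Finset.sum_neg_distrib, h1, neg_zero]
  simp only [acnt, Int.cast_sub, Int.cast_natCast, sub_mul, Finset.sum_sub_distrib, h1, h2,
    sub_zero]

end bridge

end Pool.Agent.H925R2
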