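import Mathlib
import Pool.Agent.H925R2.Bridge

/-!
# Rationality of slopes and a general criterion for balancedness
-/

namespace Pool.Agent.H925R2

open Polynomial

/-- The slopes of algebraic numbers are rational. -/
theorem log_norm_rational (p : ℕ) [Fact p.Prime] (α : PadicAlgCl p) (hα : α ≠ 0) :
    ∃ r : ℚ, Real.log ‖α‖ = r * Real.log p := by
  have h1 : ‖α‖ = ‖(minpoly ℚ_[p] α).coeff 0‖ ^ (1 / (minpoly ℚ_[p] α).natDegree : ℝ) := by
    rw [← PadicAlgCl.spectralNorm_eq, spectralNorm.spectralNorm_eq_norm_coeff_zero_rpow]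
  have h2 : (minpoly ℚ_[p] α).coeff 0 ≠ 0 :=
    minpoly.coeff_zero_ne_zero (Algebra.IsIntegral.isIntegral α) hα
  refine ⟨-((minpoly ℚ_[p] α).coeff 0).valuation / (minpoly ℚ_[p] α).natDegree, ?_⟩
  rw [h1, Real.log_rpow (norm_pos_iff.2 h2), Padic.norm_eq_zpow_neg_valuation h2, Real.log_zpow]
  push_cast
  ring

/-- The deviations of the roots are integral multiples of one nonzero number. -/
theorem exists_int_dev (p : ℕ) [Fact p.Prime] {f : ℚ[X]} (hf : f ≠ 0)
    (hf0 : ∀ α : PadicAlgCl p, aeval α f = 0 → α ≠ 0) {q : ℚ} (hq : q ≠ 0) :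
    ∃ (κ : ℝ) (U : PadicAlgCl p → ℤ), 0 < κ ∧
      ∀ α : PadicAlgCl p, aeval α f = 0 → dev p q α = κ * U α := by
  classical
  have hlogp : 0 < Real.log p := Real.log_pos (by exact_mod_cast (Fact.out : p.Prime).one_lt)
  have hq' : (q : PadicAlgCl p) ≠ 0 := by exact_mod_cast hq
  obtain ⟨s, hs⟩ := log_norm_rational p (q : PadicAlgCl p) hq'
  have h1 : ∀ α : PadicAlgCl p, ∃ r : ℚ, aeval α f = 0 → dev p q α = r * Real.log p := by
    intro α
    by_cases hα : aeval α f = 0
    · obtain ⟨r, hr⟩ := log_norm_rational p α (hf0 α hα)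
      refine ⟨2 * r - s, fun _ => ?_⟩
      unfold dev
      rw [hr, hs]
      push_cast
      ring
    · exact ⟨0, fun h => absurd h hα⟩
  choose r hr using h1
  set S : Finset (PadicAlgCl p) := (f.rootSet (PadicAlgCl p)).toFinset with hS
  set N : ℕ := ∏ α ∈ S, (r α).den with hN
  have hN0 : 0 < N := Finset.prod_pos fun α _ => (r α).den_pos
  refine ⟨Real.log p / N, fun α => (r α * N).num, div_pos hlogp (by exact_mod_cast hN0), ?_⟩
  intro α hα
  have hmem : α ∈ S := by
    rw [hS, Set.mem_toFinset]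
    exact mem_rootSet.2 ⟨hf, hα⟩
  have h2 : ((r α * N).num : ℚ) = r α * N := by
    have h3 : (r α).den ∣ N := Finset.dvd_prod_of_mem _ hmem
    obtain ⟨t, ht⟩ := h3
    have h4 : r α * N = (((r α).num * t : ℤ) : ℚ) := by
      rw [ht]
      push_cast
      rw [← mul_assoc, Rat.mul_den_eq_num]
    rw [h4, Rat.num_intCast]
  have h3 : (((r α * N).num : ℤ) : ℝ) = (r α : ℝ) * N := by
    have := congrArg (Rat.cast (K := ℝ)) h2
    push_cast at this
    exact this
  rw [hr α hα, h3]
  have : (N : ℝ) ≠ 0 := by exact_mod_cast hN0.ne'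
  field_simp

section general

variable {f : ℚ[X]} (hf : Irreducible f) {q : ℚ} (hq : 0 < q)
  (hweil : ∀ z : ℂ, aeval z f = 0 → ‖z‖ ^ 2 = (q : ℝ))

include hf hq hweil in
theorem padic_root_ne_zero (p : ℕ) [Fact p.Prime] (α : PadicAlgCl p) (hα : aeval α f = 0) :
    α ≠ 0 := by
  let e : f.SplittingField →ₐ[ℚ] PadicAlgCl p := IsAlgClosed.lift
  obtain ⟨x, rfl⟩ := exists_root_eq hf e α hα
  exact fun h => root_ne_zero hq hweil x.1 ((mem_rootSet.1 x.2).2) ((map_eq_zero e).1 h)

/-- If there are no nontrivial antisymmetric relations, all multiplicative relations are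
balanced. -/
theorem balanced_of_norel (p : ℕ) [Fact p.Prime] (e : f.SplittingField →ₐ[ℚ] PadicAlgCl p)
    (hno : ∀ c : f.rootSet f.SplittingField → ℤ, (∀ x, c (rinv hf hq hweil x) = - c x) →
      (∀ g : f.Gal, ∑ x : f.rootSet f.SplittingField, (c x : ℝ) *
        dev p q (e (g • x : f.rootSet f.SplittingField).1) = 0) → ∀ x, c x = 0)
    {Ω : Type*} [Field Ω] [CharZero Ω] [IsAlgClosed Ω] [DecidableEq Ω]
    (L : List Ω) (m s : ℕ) (hs : 0 < s) (hlen : L.length = 2 * m) (hL : ∀ y ∈ L, aeval y f = 0)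
    (hprod : L.prod ^ s = ((q : Ω) ^ m) ^ s) (y : Ω) (hy : aeval y f = 0) :
    L.count y = L.count ((q : Ω) / y) := by
  let j : f.SplittingField →ₐ[ℚ] Ω := IsAlgClosed.lift
  have h0 := hno (acnt hf hq hweil j L) (acnt_rinv hf hq hweil j L)
    (fun g => sum_acnt_dev hf hq hweil j p e L m s hs hlen hL hprod g)
  obtain ⟨x, rfl⟩ := exists_root_eq hf j y hy
  have h1 := h0 x
  unfold acnt cnt at h1
  rw [rinv_coe, map_div₀, map_ratCast] at h1
  omega

include hf in
/-- If some root has nonzero deviation, the involution has no fixed point. -/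
theorem rinv_ne_of_dev (p : ℕ) [Fact p.Prime] (e : f.SplittingField →ₐ[ℚ] PadicAlgCl p)
    (hns : ∃ α : PadicAlgCl p, aeval α f = 0 ∧ dev p q α ≠ 0) (x : f.rootSet f.SplittingField) :
    rinv hf hq hweil x ≠ x := by
  intro h
  obtain ⟨α, hα, hd⟩ := hns
  obtain ⟨y, rfl⟩ := exists_root_eq hf e α hα
  have _ : MulAction.IsPretransitive f.Gal (f.rootSet f.SplittingField) := gal_pretransitive hf
  obtain ⟨g, hg⟩ := MulAction.exists_smul_eq f.Gal x y
  have h1 : rinv hf hq hweil y = y := by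
    rw [← hg, ← smul_rinv, h]
  have h2 := dev_rinv hf hq hweil p e y
  rw [h1] at h2
  apply hd
  linarith

/-- Doubly transitive on the numbers `x + q / x`, `x` a root of `f`. -/
def DoublyTransitive (f : ℚ[X]) (q : ℚ) : Prop :=
  ∀ x y x' y' : f.SplittingField, aeval x f = 0 → aeval y f = 0 → aeval x' f = 0 →
    aeval y' f = 0 → x + (q : f.SplittingField) / x ≠ y + (q : f.SplittingField) / y →
    x' + (q : f.SplittingField) / x' ≠ y' + (q : f.SplittingField) / y' →
    ∃ σ : f.Gal, σ (x + (q : f.SplittingField) / x) = x' + (q : f.SplittingField) / x' ∧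
      σ (y + (q : f.SplittingField) / y) = y' + (q : f.SplittingField) / y'

theorem trace_eq_iff {K : Type*} [Field K] {q x y : K} (hx : x ≠ 0) (hy : y ≠ 0) :
    x + q / x = y + q / y ↔ (y = x ∨ y = q / x) := by
  have key : (x + q / x) - (y + q / y) = (x - y) * (x * y - q) / (x * y) := by
    field_simp
    ring
  rw [← sub_eq_zero, key, div_eq_zero_iff, mul_eq_zero, sub_eq_zero, sub_eq_zero]
  have hxy : x * y ≠ 0 := mul_ne_zero hx hy
  constructor
  · rintro ((h | h) | h)
    · exact Or.inl h.symm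
    · right
      rw [← h]; field_simp
    · exact absurd h hxy
  · rintro (h | h)
    · exact Or.inl (Or.inl h.symm)
    · left; right
      rw [h]; field_simp

theorem pairs_of_doublyTransitive (hdt : DoublyTransitive f q)
    (x y x' y' : f.rootSet f.SplittingField) (h1 : y ≠ x) (h2 : y ≠ rinv hf hq hweil x)
    (h3 : y' ≠ x') (h4 : y' ≠ rinv hf hq hweil x') :
    ∃ g : f.Gal, (g • x = x' ∨ g • x = rinv hf hq hweil x') ∧
      (g • y = y' ∨ g • y = rinv hf hq hweil y') := by
  have hr : ∀ z : f.rootSet f.SplittingField, aeval z.1 f = 0 := fun z => (mem_rootSet.1 z.2).2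
  have hz : ∀ z : f.rootSet f.SplittingField, z.1 ≠ 0 := fun z => root_ne_zero hq hweil z.1 (hr z)
  have hne : ∀ z w : f.rootSet f.SplittingField, w ≠ z → w ≠ rinv hf hq hweil z →
      z.1 + (q : f.SplittingField) / z.1 ≠ w.1 + (q : f.SplittingField) / w.1 := by
    intro z w hw1 hw2 h
    rcases (trace_eq_iff (hz z) (hz w)).1 h with h5 | h5
    · exact hw1 (Subtype.ext h5)
    · exact hw2 (Subtype.ext (by rw [h5, rinv_coe]))
  obtain ⟨σ, hσ1, hσ2⟩ := hdt x.1 y.1 x'.1 y'.1 (hr x) (hr y) (hr x') (hr y') (hne x y h1 h2)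
    (hne x' y' h3 h4)
  have fin : ∀ z z' : f.rootSet f.SplittingField,
      σ (z.1 + (q : f.SplittingField) / z.1) = z'.1 + (q : f.SplittingField) / z'.1 →
      (σ • z = z' ∨ σ • z = rinv hf hq hweil z') := by
    intro z z' h
    rw [map_add, map_div₀, map_ratCast, eq_comm] at h
    have h5 : σ z.1 ≠ 0 := by
      have := hz (σ • z)
      rwa [smul_coe] at this
    rcases (trace_eq_iff (hz z') h5).1 h with h6 | h6
    · left; exact Subtype.ext h6
    · right; exact Subtype.ext (by rw [rinv_coe, smul_coe, h6])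
  exact ⟨σ, fin x x' hσ1, fin y y' hσ2⟩

end general

end Pool.Agent.H925R2
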