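import Mathlib
import Pool.Agent.H925R2.Ext
import Pool.Agent.H925R2.Rational

/-!
# Wrapper: from balancedness to the statement on exterior powers, abelian variety case `q = p ^ a`
-/

namespace Pool.Agent.H925R2

open Polynomial

theorem norm_pow_cast (p : ℕ) [Fact p.Prime] (a : ℕ) :
    ‖((((p : ℚ) ^ a : ℚ)) : PadicAlgCl p)‖ = ((p : ℝ) ^ a)⁻¹ := by
  have h1 : ((((p : ℚ) ^ a : ℚ)) : PadicAlgCl p) =
      (algebraMap ℚ_[p] (PadicAlgCl p)) ((p : ℚ_[p]) ^ a) := by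
    push_cast
    rfl
  rw [h1, PadicAlgCl.norm_extends, norm_pow, Padic.norm_p, inv_pow]

/-- the deviation in terms of the slope: `dev = - log q * (2 slope - 1)`. -/
theorem dev_pow (p : ℕ) [Fact p.Prime] (a : ℕ) (ha : 0 < a) (α : PadicAlgCl p) :
    dev p ((p : ℚ) ^ a) α =
      - Real.log ((p : ℝ) ^ a) * (2 * (- Real.logb ((p : ℝ) ^ a) ‖α‖) - 1) := by
  have hp1 : (1 : ℝ) < (p : ℝ) ^ a :=
    one_lt_pow₀ (by exact_mod_cast (Fact.out : p.Prime).one_lt) ha.ne'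
  have hlogp : Real.log ((p : ℝ) ^ a) ≠ 0 := (Real.log_pos hp1).ne'
  unfold dev
  rw [norm_pow_cast, Real.log_inv]
  unfold Real.logb
  field_simp
  ring

/-- The exterior algebra conclusion from balancedness. -/
theorem ext_of_balanced (p : ℕ) [Fact p.Prime] (a : ℕ) {f : ℚ[X]} (hf : Irreducible f)
    (hweil : ∀ z : ℂ, aeval z f = 0 → ‖z‖ ^ 2 = (p : ℝ) ^ a)
    (hfix : ∀ x : f.SplittingField, aeval x f = 0 →
      (((p : ℚ) ^ a : ℚ) : f.SplittingField) / x ≠ x)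
    {Ω : Type*} [Field Ω] [IsAlgClosed Ω] [CharZero Ω]
    {V : Type*} [AddCommGroup V] [Module Ω V] (F : V →ₗ[Ω] V)
    (hF : Submodule.span Ω {v : V | ∃ μ : Ω, aeval μ f = 0 ∧ F v = μ • v} = ⊤)
    (m s : ℕ)
    (hbal : ∀ [DecidableEq Ω] (L : List Ω), L.length = 2 * m → (∀ y ∈ L, aeval y f = 0) →
      L.prod ^ s = ((((p : ℚ) ^ a : ℚ) : Ω) ^ m) ^ s → ∀ y : Ω, aeval y f = 0 →
      L.count y = L.count ((((p : ℚ) ^ a : ℚ) : Ω) / y))
    (x : ExteriorAlgebra Ω V) (hx : x ∈ ⋀[Ω]^(2 * m) V)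
    (hFx : ExteriorAlgebra.map (F ^ s) x = (((p : Ω) ^ a) ^ m) ^ s • x) :
    x ∈ Algebra.adjoin Ω
      {y : ExteriorAlgebra Ω V | y ∈ ⋀[Ω]^2 V ∧ ExteriorAlgebra.map F y = (p : Ω) ^ a • y} := by
  classical
  have hq : (0 : ℚ) < (p : ℚ) ^ a := pow_pos (by exact_mod_cast (Fact.out : p.Prime).pos) a
  have hweil' : ∀ z : ℂ, aeval z f = 0 → ‖z‖ ^ 2 = (((p : ℚ) ^ a : ℚ) : ℝ) := by
    intro z hz
    rw [hweil z hz]
    push_cast
    rfl
  have hcastΩ : ((((p : ℚ) ^ a : ℚ)) : Ω) = (p : Ω) ^ a := by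
    push_cast
    rfl
  refine mem_adjoin_of_balanced F ((p : Ω) ^ a) {μ : Ω | aeval μ f = 0} ?_ hF m s ?_ x hx hFx
  · intro y hy
    let j : f.SplittingField →ₐ[ℚ] Ω := IsAlgClosed.lift
    obtain ⟨z, rfl⟩ := exists_root_eq hf j y hy
    have hz := (mem_rootSet.1 z.2).2
    refine ⟨fun h => root_ne_zero hq hweil' z.1 hz ((map_eq_zero j).1 h), fun h => ?_⟩
    rw [← hcastΩ, ← map_ratCast j, ← map_div₀] at h
    exact hfix z.1 hz (j.injective h)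
  · intro L hlen hL hprod y hy
    rw [← hcastΩ] at hprod ⊢
    exact hbal L hlen hL hprod y hy

end Pool.Agent.H925R2
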