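import Mathlib
import Pool.Agent.H925R2.Core

/-!
# Doubly transitive case: the two-graph argument

`R` with involution `inv`, `G` acts commuting with `inv`, and doubly transitively on the pairs
`{x, inv x}`.  If `c ≠ 0` is an antisymmetric integral relation for all translates of an
antisymmetric `w ≠ 0`, the Gram kernels of `c` and `w` are `A + B C` and `A' - B' C` with a common
`±1` matrix `C`, so that `C w = - a w`, `C c = a' c` with positive integers `a a' = g - 1`.
-/

namespace Pool.Agent.H925R2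

set_option linter.unusedSectionVars false

section twotrans

variable {R : Type*} [Fintype R] [DecidableEq R] {inv : R → R}
variable {G : Type*} [Group G] [Fintype G] [MulAction G R]

/-- Gram kernel of the translates of `c`. -/
def gram (G : Type*) [Group G] [Fintype G] [MulAction G R] (c : R → ℤ) (x y : R) : ℤ :=
  ∑ g : G, c (g • x) * c (g • y)

theorem gram_smul (c : R → ℤ) (h : G) (x y : R) : gram G c (h • x) (h • y) = gram G c x y := by
  unfold gram
  refine Fintype.sum_equiv (Equiv.mulRight h) _ _ fun g => ?_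
  simp [mul_smul]

theorem gram_comm (c : R → ℤ) (x y : R) : gram G c x y = gram G c y x := by
  unfold gram
  exact Finset.sum_congr rfl fun g _ => mul_comm _ _

theorem gram_inv_left (hG : ∀ (g : G) (x : R), g • inv x = inv (g • x)) (c : R → ℤ)
    (hc : ∀ x, c (inv x) = -c x) (x y : R) : gram G c (inv x) y = - gram G c x y := by
  unfold gram
  rw [← Finset.sum_neg_distrib]
  refine Finset.sum_congr rfl fun g _ => ?_
  rw [hG, hc]; ring

theorem gram_inv_right (hG : ∀ (g : G) (x : R), g • inv x = inv (g • x)) (c : R → ℤ)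
    (hc : ∀ x, c (inv x) = -c x) (x y : R) : gram G c x (inv y) = - gram G c x y := by
  rw [gram_comm, gram_inv_left hG c hc, gram_comm]

theorem gram_diag_pos [MulAction.IsPretransitive G R] (c : R → ℤ) (hc : ∃ x, c x ≠ 0) (x : R) :
    0 < gram G c x x := by
  obtain ⟨y, hy⟩ := hc
  obtain ⟨g, hg⟩ := MulAction.exists_smul_eq G x y
  unfold gram
  refine Finset.sum_pos' (fun g _ => mul_self_nonneg _) ⟨g, Finset.mem_univ _, ?_⟩
  rw [hg]
  exact mul_self_pos.2 hy

theorem gram_diag [MulAction.IsPretransitive G R] (c : R → ℤ) (x y : R) :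
    gram G c x x = gram G c y y := by
  obtain ⟨g, hg⟩ := MulAction.exists_smul_eq G x y
  rw [← hg, gram_smul]

/-- `Σ_y c(g y) w(h y) = 0`. -/
theorem rel_two (c w : R → ℤ) (hrel : ∀ g : G, ∑ x, c x * w (g • x) = 0) (g h : G) :
    ∑ y, c (g • y) * w (h • y) = 0 := by
  rw [← hrel (h * g⁻¹)]
  refine Fintype.sum_equiv (MulAction.toPerm g) _ _ fun y => ?_
  simp [mul_smul]

theorem gram_mul_right (c w : R → ℤ) (hrel : ∀ g : G, ∑ x, c x * w (g • x) = 0) (x : R) (h : G) :
    ∑ y, gram G c x y * w (h • y) = 0 := by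
  unfold gram
  simp only [Finset.sum_mul]
  rw [Finset.sum_comm]
  refine Finset.sum_eq_zero fun g _ => ?_
  have h1 := rel_two c w hrel g h
  have h2 : ∑ y, c (g • x) * c (g • y) * w (h • y) = c (g • x) * ∑ y, c (g • y) * w (h • y) := by
    rw [Finset.mul_sum]
    exact Finset.sum_congr rfl fun y _ => by ring
  rw [h2, h1, mul_zero]

theorem gram_mul_left (c w : R → ℤ) (hrel : ∀ g : G, ∑ x, c x * w (g • x) = 0) (x : R) :
    ∑ y, gram G w x y * c y = 0 := by
  have hrel' : ∀ g : G, ∑ x, w x * c (g • x) = 0 := by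
    intro g
    have := rel_two c w hrel g 1
    simp only [one_smul] at this
    rw [← this]
    exact Finset.sum_congr rfl fun y _ => mul_comm _ _
  have := gram_mul_right w c hrel' x 1
  simpa using this

theorem gram_mul_gram (c w : R → ℤ) (hrel : ∀ g : G, ∑ x, c x * w (g • x) = 0) (x z : R) :
    ∑ y, gram G c x y * gram G w y z = 0 := by
  have h1 : ∀ y, gram G c x y * gram G w y z = ∑ h : G, w (h • z) * (gram G c x y * w (h • y)) := by
    intro y
    have h2 : gram G w y z = ∑ h : G, w (h • y) * w (h • z) := rfl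
    rw [h2, Finset.mul_sum]
    exact Finset.sum_congr rfl fun h _ => by ring
  rw [Finset.sum_congr rfl fun y _ => h1 y, Finset.sum_comm]
  refine Finset.sum_eq_zero fun h _ => ?_
  rw [← Finset.mul_sum, gram_mul_right c w hrel x h, mul_zero]

theorem dvd_of_quadratic (A B m n : ℤ) (hB : B ≠ 0) (h : A ^ 2 = m * B ^ 2 + n * A * B) : B ∣ A := by
  obtain ⟨d, α, β, hd, hcop, hA, hB'⟩ := Int.exists_gcd_one' (m := A) (n := B) (by
    rw [Nat.pos_iff_ne_zero, Ne, Int.gcd_eq_zero_iff]
    rintro ⟨_, h⟩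
    exact hB h)
  have hd0 : (d : ℤ) ≠ 0 := by exact_mod_cast hd.ne'
  have h1 : α ^ 2 = m * β ^ 2 + n * α * β := by
    have h2 : (d : ℤ) ^ 2 * (α ^ 2) = (d : ℤ) ^ 2 * (m * β ^ 2 + n * α * β) := by
      rw [hA, hB'] at h
      linear_combination h
    exact mul_left_cancel₀ (pow_ne_zero 2 hd0) h2
  have h3 : β ∣ α ^ 2 := ⟨m * β + n * α, by rw [h1]; ring⟩
  have h4 : IsCoprime β (α ^ 2) := by
    have : IsCoprime α β := Int.isCoprime_iff_gcd_eq_one.2 hcop
    exact this.symm.pow_right
  have h5 : IsUnit β := h4.isUnit_of_dvd' (dvd_refl _) h3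
  rw [hA, hB']
  exact mul_dvd_mul (h5.dvd) (dvd_refl _)

/-- The two-graph structure forced by a nontrivial relation in the doubly transitive case. -/
theorem twograph [MulAction.IsPretransitive G R]
    (hinv : ∀ x, inv (inv x) = x) (hne : ∀ x, inv x ≠ x)
    (hG : ∀ (g : G) (x : R), g • inv x = inv (g • x))
    (h2 : ∀ x y x' y' : R, y ≠ x → y ≠ inv x → y' ≠ x' → y' ≠ inv x' →
      ∃ g : G, (g • x = x' ∨ g • x = inv x') ∧ (g • y = y' ∨ g • y = inv y'))
    (n : ℕ) (hcard : Fintype.card R = 2 * n)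
    (c w : R → ℤ) (hc : ∀ x, c (inv x) = -c x) (hw : ∀ x, w (inv x) = -w x)
    (hc0 : ∃ x, c x ≠ 0) (hw0 : ∃ x, w x ≠ 0)
    (hrel : ∀ g : G, ∑ x, c x * w (g • x) = 0) :
    ∃ (C : R → R → ℤ) (a a' : ℤ), 0 < a ∧ 0 < a' ∧ a * a' = (n : ℤ) - 1 ∧
      (∀ x y, y = x ∨ y = inv x → C x y = 0) ∧
      (∀ x y, y ≠ x → y ≠ inv x → C x y = 1 ∨ C x y = -1) ∧
      (∀ (g : G) x y, C (g • x) (g • y) = C x y) ∧
      (∀ x y, C x (inv y) = -C x y) ∧
      (∀ x, ∑ y, C x y * w y = -2 * a * w x) ∧
      (∀ x, ∑ y, C x y * c y = 2 * a' * c x) := by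
  classical
  obtain ⟨x₁, hx₁⟩ := hc0
  set A := gram G c x₁ x₁ with hA
  set A' := gram G w x₁ x₁ with hA'
  have hApos : 0 < A := gram_diag_pos c ⟨x₁, hx₁⟩ x₁
  have hA'pos : 0 < A' := gram_diag_pos w hw0 x₁
  -- an off-diagonal pair with positive kernel value
  have hoff : ∃ y, y ≠ x₁ ∧ y ≠ inv x₁ ∧ gram G c x₁ y ≠ 0 := by
    by_contra hno
    push Not at hno
    have h3 := gram_mul_gram c w hrel x₁ x₁
    have h4 : ∀ y, gram G c x₁ y * gram G w y x₁ =
        (if y = x₁ then A * A' else 0) + (if y = inv x₁ then A * A' else 0) := by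
      intro y
      by_cases h5 : y = x₁
      · subst h5
        simp [(hne y).symm, hA, hA']
      · by_cases h6 : y = inv x₁
        · subst h6
          rw [gram_inv_right hG c hc, gram_inv_left hG w hw]
          simp [hne x₁, hA, hA']
        · simp [h5, h6, hno y h5 h6]
    rw [Finset.sum_congr rfl fun y _ => h4 y, Finset.sum_add_distrib, Finset.sum_ite_eq',
      Finset.sum_ite_eq'] at h3
    simp only [Finset.mem_univ, if_true] at h3
    have : 0 < A * A' := mul_pos hApos hA'pos
    omega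
  obtain ⟨y₁, hy1, hy1', hB⟩ : ∃ y, y ≠ x₁ ∧ y ≠ inv x₁ ∧ 0 < gram G c x₁ y := by
    obtain ⟨y, h3, h4, h5⟩ := hoff
    rcases lt_or_gt_of_ne h5 with h | h
    · refine ⟨inv y, fun h' => h4 ?_, fun h' => h3 ?_, ?_⟩
      · rw [← h', hinv]
      · have := congrArg inv h'
        rwa [hinv, hinv] at this
      · rw [gram_inv_right hG c hc]; omega
    · exact ⟨y, h3, h4, h⟩
  set B := gram G c x₁ y₁ with hBdef
  set B₀ := gram G w x₁ y₁ with hB0def
  -- off-diagonal values
  have hs : ∀ x y, y ≠ x → y ≠ inv x → ∃ s : ℤ, (s = 1 ∨ s = -1) ∧ gram G c x y = B * s ∧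
      gram G w x y = B₀ * s := by
    intro x y h3 h4
    obtain ⟨g, hgx, hgy⟩ := h2 x₁ y₁ x y hy1 hy1' h3 h4
    have hcg := gram_smul (G := G) c g x₁ y₁
    have hwg := gram_smul (G := G) w g x₁ y₁
    rcases hgx with hgx | hgx <;> rcases hgy with hgy | hgy
    · rw [hgx, hgy] at hcg hwg
      exact ⟨1, Or.inl rfl, by rw [hcg, mul_one], by rw [hwg, mul_one]⟩
    · rw [hgx, hgy, gram_inv_right hG c hc] at hcg
      rw [hgx, hgy, gram_inv_right hG w hw] at hwg
      exact ⟨-1, Or.inr rfl, by rw [hBdef, ← hcg]; ring, by rw [hB0def, ← hwg]; ring⟩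
    · rw [hgx, hgy, gram_inv_left hG c hc] at hcg
      rw [hgx, hgy, gram_inv_left hG w hw] at hwg
      exact ⟨-1, Or.inr rfl, by rw [hBdef, ← hcg]; ring, by rw [hB0def, ← hwg]; ring⟩
    · rw [hgx, hgy, gram_inv_left hG c hc, gram_inv_right hG c hc] at hcg
      rw [hgx, hgy, gram_inv_left hG w hw, gram_inv_right hG w hw] at hwg
      exact ⟨1, Or.inl rfl, by rw [hBdef, ← hcg]; ring, by rw [hB0def, ← hwg]; ring⟩
  let C : R → R → ℤ := fun x y => if y = x ∨ y = inv x then 0 else gram G c x y / B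
  have hC0 : ∀ x y, y = x ∨ y = inv x → C x y = 0 := fun x y h => if_pos h
  have hCs : ∀ x y, y ≠ x → y ≠ inv x → (C x y = 1 ∨ C x y = -1) ∧ gram G c x y = B * C x y ∧
      gram G w x y = B₀ * C x y := by
    intro x y h3 h4
    obtain ⟨s, hs1, hs2, hs3⟩ := hs x y h3 h4
    have h5 : C x y = s := by
      change (if y = x ∨ y = inv x then 0 else gram G c x y / B) = s
      rw [if_neg (by tauto), hs2]
      exact Int.mul_ediv_cancel_left _ hB.ne'
    rw [h5]
    exact ⟨hs1, hs2, hs3⟩
  have hgc : ∀ x y, gram G c x y = B * C x y + (if y = x then A else 0) +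
      (if y = inv x then -A else 0) := by
    intro x y
    by_cases h5 : y = x
    · subst h5
      rw [hC0 y y (Or.inl rfl), if_pos rfl, if_neg (hne y).symm, gram_diag c y x₁]
      ring
    · by_cases h6 : y = inv x
      · rw [hC0 x y (Or.inr h6), if_neg h5, if_pos h6, h6, gram_inv_right hG c hc,
          gram_diag c x x₁]
        ring
      · rw [if_neg h5, if_neg h6, (hCs x y h5 h6).2.1]
        ring
  have hgw : ∀ x y, gram G w x y = B₀ * C x y + (if y = x then A' else 0) +
      (if y = inv x then -A' else 0) := by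
    intro x y
    by_cases h5 : y = x
    · subst h5
      rw [hC0 y y (Or.inl rfl), if_pos rfl, if_neg (hne y).symm, gram_diag w y x₁]
      ring
    · by_cases h6 : y = inv x
      · rw [hC0 x y (Or.inr h6), if_neg h5, if_pos h6, h6, gram_inv_right hG w hw,
          gram_diag w x x₁]
        ring
      · rw [if_neg h5, if_neg h6, (hCs x y h5 h6).2.2]
        ring
  have hCinv : ∀ x y, C x (inv y) = -C x y := by
    intro x y
    by_cases h5 : y = x
    · rw [hC0 x y (Or.inl h5), hC0 x (inv y) (Or.inr (by rw [h5]))]; rfl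
    · by_cases h6 : y = inv x
      · rw [hC0 x y (Or.inr h6), hC0 x (inv y) (Or.inl (by rw [h6, hinv]))]; rfl
      · have h7 : inv y ≠ x := fun h => h6 (by rw [← h, hinv])
        have h8 : inv y ≠ inv x := fun h => h5 (by
          have := congrArg inv h
          rwa [hinv, hinv] at this)
        have h9 := (hCs x (inv y) h7 h8).2.1
        rw [gram_inv_right hG c hc, (hCs x y h5 h6).2.1] at h9
        apply mul_left_cancel₀ hB.ne'
        rw [← h9]; ring
  have hCsmul : ∀ (g : G) x y, C (g • x) (g • y) = C x y := by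
    intro g x y
    by_cases h5 : y = x
    · rw [hC0 x y (Or.inl h5), hC0 _ _ (Or.inl (by rw [h5]))]
    · by_cases h6 : y = inv x
      · rw [hC0 x y (Or.inr h6), hC0 _ _ (Or.inr (by rw [h6, hG]))]
      · have h7 : g • y ≠ g • x := fun h => h5 (smul_left_cancel g h)
        have h8 : g • y ≠ inv (g • x) := fun h => h6 (by
          rw [← hG] at h
          exact smul_left_cancel g h)
        have h9 := (hCs (g • x) (g • y) h7 h8).2.1
        rw [gram_smul, (hCs x y h5 h6).2.1] at h9
        exact (mul_left_cancel₀ hB.ne' h9).symm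
  have hCsymm : ∀ x y, C x y = C y x := by
    intro x y
    by_cases h5 : y = x
    · rw [h5]
    · by_cases h6 : y = inv x
      · rw [hC0 x y (Or.inr h6), hC0 y x (Or.inr (by rw [h6, hinv]))]
      · have h7 : x ≠ y := fun h => h5 h.symm
        have h8 : x ≠ inv y := fun h => h6 (by rw [h, hinv])
        have h9 := (hCs x y h5 h6).2.1
        rw [gram_comm, (hCs y x h7 h8).2.1] at h9
        exact (mul_left_cancel₀ hB.ne' h9).symm
  -- eigenvector equations
  have hCw : ∀ x, B * ∑ y, C x y * w y + 2 * A * w x = 0 := by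
    intro x
    have h3 := gram_mul_right c w hrel x 1
    simp only [one_smul, hgc, add_mul, Finset.sum_add_distrib, ite_mul, zero_mul,
      Finset.sum_ite_eq', Finset.mem_univ, if_true, hw, mul_assoc] at h3
    rw [← Finset.mul_sum] at h3
    linarith
  have hCc : ∀ x, B₀ * ∑ y, C x y * c y + 2 * A' * c x = 0 := by
    intro x
    have h3 := gram_mul_left c w hrel x
    simp only [hgw, add_mul, Finset.sum_add_distrib, ite_mul, zero_mul,
      Finset.sum_ite_eq', Finset.mem_univ, if_true, hc, mul_assoc] at h3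
    rw [← Finset.mul_sum] at h3
    linarith
  have hCC : ∀ x z, B * B₀ * ∑ y, C x y * C z y + 2 * A' * B * C x z + 2 * A * gram G w x z = 0 := by
    intro x z
    have h3 := gram_mul_gram c w hrel x z
    have h4 : ∀ y, gram G c x y * gram G w y z =
        B * B₀ * (C x y * C z y) + (if y = z then B * C x y * A' else 0) +
        (if y = inv z then -(B * C x y * A') else 0) +
        (if y = x then A * gram G w y z else 0) + (if y = inv x then - (A * gram G w y z) else 0) := by
      intro y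
      have h5 : gram G w y z = B₀ * C z y + (if y = z then A' else 0) +
        (if y = inv z then -A' else 0) := by rw [gram_comm, hgw z y]
      conv_lhs => rw [hgc x y]
      have h6 : (B * C x y + (if y = x then A else 0) + (if y = inv x then -A else 0)) *
          gram G w y z = B * C x y * gram G w y z + (if y = x then A * gram G w y z else 0) +
            (if y = inv x then - (A * gram G w y z) else 0) := by
        split_ifs <;> ring
      rw [h6]
      congr 2
      rw [h5]
      split_ifs <;> ring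
    rw [Finset.sum_congr rfl fun y _ => h4 y] at h3
    simp only [Finset.sum_add_distrib, Finset.sum_ite_eq', Finset.mem_univ, if_true,
      ← Finset.mul_sum, hCinv, gram_inv_left hG w hw] at h3
    linarith
  -- half sums
  obtain ⟨Φ, hΦ⟩ := exists_isHalf hinv hne
  have hΦcard : Φ.card = n := by
    have := hΦ.card hinv
    omega
  -- diagonal relation : A A' = (n-1) B (-B₀)
  have hdiag : A * A' = ((n : ℤ) - 1) * (B * (-B₀)) := by
    have h3 := hCC x₁ x₁
    rw [hC0 x₁ x₁ (Or.inl rfl), mul_zero, add_zero] at h3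
    have h4 : ∑ y, C x₁ y * C x₁ y = 2 * ((n : ℤ) - 1) := by
      have h5 : ∀ y, C x₁ y * C x₁ y = 1 - (if y = x₁ then 1 else 0) - (if y = inv x₁ then 1 else 0) := by
        intro y
        by_cases h5 : y = x₁
        · rw [hC0 x₁ y (Or.inl h5), if_pos h5, if_neg (by rw [h5]; exact (hne x₁).symm)]; ring
        · by_cases h6 : y = inv x₁
          · rw [hC0 x₁ y (Or.inr h6), if_neg h5, if_pos h6]; ring
          · rw [if_neg h5, if_neg h6]
            rcases (hCs x₁ y h5 h6).1 with h | h <;> rw [h] <;> ring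
      rw [Finset.sum_congr rfl fun y _ => h5 y]
      simp only [Finset.sum_sub_distrib, Finset.sum_ite_eq', Finset.mem_univ, if_true,
        Finset.sum_const, Finset.card_univ, hcard, nsmul_eq_mul, mul_one]
      push_cast
      ring
    rw [h4, ← hA'] at h3
    linarith
  have hB0neg : B₀ < 0 := by
    by_contra h
    push Not at h
    have h3 : 0 < A * A' := mul_pos hApos hA'pos
    have h4 : (0 : ℤ) ≤ (n : ℤ) - 1 := by
      have : 0 < n := by
        rw [← hΦcard, Finset.card_pos]
        by_cases hx : x₁ ∈ Φ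
        · exact ⟨_, hx⟩
        · rw [hΦ x₁, not_not] at hx
          exact ⟨_, hx⟩
      omega
    have h5 : ((n : ℤ) - 1) * (B * (-B₀)) ≤ 0 :=
      mul_nonpos_of_nonneg_of_nonpos h4 (mul_nonpos_of_nonneg_of_nonpos hB.le (by omega))
    omega
  -- integrality
  obtain ⟨N, hN⟩ : ∃ N : ℤ, A' * B - A * (-B₀) = N * (B * (-B₀)) := by
    have h3 := hCC x₁ y₁
    have h4 := hΦ.sum_symm hinv (fun y => C x₁ y * C y₁ y) (fun y => by
      simp only [hCinv]; ring)
    rw [h4, (hCs x₁ y₁ hy1 hy1').2.2] at h3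
    have h5 : C x₁ y₁ * C x₁ y₁ = 1 := by
      rcases (hCs x₁ y₁ hy1 hy1').1 with h | h <;> rw [h] <;> ring
    refine ⟨(∑ y ∈ Φ, C x₁ y * C y₁ y) * C x₁ y₁, ?_⟩
    have h6 : (A' * B + A * B₀) * C x₁ y₁ = (∑ y ∈ Φ, C x₁ y * C y₁ y) * (B * (-B₀)) := by
      linarith
    have h7 : (A' * B + A * B₀) * C x₁ y₁ * C x₁ y₁ = (∑ y ∈ Φ, C x₁ y * C y₁ y) * (B * (-B₀)) *
        C x₁ y₁ := by rw [h6]
    rw [mul_assoc (A' * B + A * B₀), h5] at h7
    linarith
  have hBB : 0 < -B₀ := by omega
  have hdvd1 : B ∣ A := by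
    apply dvd_of_quadratic A B ((n : ℤ) - 1) (-N) hB.ne'
    have h3 : A ^ 2 * (-B₀) = (((n : ℤ) - 1) * B ^ 2 + -N * A * B) * (-B₀) := by
      linear_combination B * hdiag - A * hN
    exact mul_right_cancel₀ hBB.ne' h3
  have hdvd2 : -B₀ ∣ A' := by
    apply dvd_of_quadratic A' (-B₀) ((n : ℤ) - 1) N hBB.ne'
    have h3 : A' ^ 2 * B = (((n : ℤ) - 1) * (-B₀) ^ 2 + N * A' * (-B₀)) * B := by
      linear_combination (-B₀) * hdiag + A' * hN
    exact mul_right_cancel₀ hB.ne' h3
  obtain ⟨a, ha⟩ := hdvd1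
  obtain ⟨a', ha'⟩ := hdvd2
  refine ⟨C, a, a', ?_, ?_, ?_, hC0, fun x y h3 h4 => (hCs x y h3 h4).1, hCsmul, hCinv, ?_, ?_⟩
  · rw [ha] at hApos
    exact (mul_pos_iff_of_pos_left hB).1 hApos
  · rw [ha'] at hA'pos
    exact (mul_pos_iff_of_pos_left hBB).1 hA'pos
  · rw [ha, ha'] at hdiag
    have h3 : (a * a') * (B * (-B₀)) = ((n : ℤ) - 1) * (B * (-B₀)) := by linarith
    exact mul_right_cancel₀ (mul_pos hB hBB).ne' h3
  · intro x
    have h3 := hCw x
    rw [ha] at h3
    apply mul_left_cancel₀ hB.ne'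
    linarith
  · intro x
    have h3 := hCc x
    rw [ha'] at h3
    apply mul_left_cancel₀ hBB.ne'
    linarith

/-- Each group element acts on `v` by a sign. -/
def SignType (G : Type*) [Group G] [MulAction G R] (v : R → ℤ) : Prop :=
  ∀ g : G, (∀ x, v (g • x) = v x) ∨ (∀ x, v (g • x) = - v x)

section eig

variable (hinv : ∀ x, inv (inv x) = x) (hne : ∀ x, inv x ≠ x)
  (hG : ∀ (g : G) (x : R), g • inv x = inv (g • x))
  (C : R → R → ℤ)
  (hC0 : ∀ x y, y = x ∨ y = inv x → C x y = 0)
  (hC1 : ∀ x y, y ≠ x → y ≠ inv x → C x y = 1 ∨ C x y = -1)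
  (hCg : ∀ (g : G) x y, C (g • x) (g • y) = C x y)
  (hCi : ∀ x y, C x (inv y) = -C x y)

include hinv hne hC0 hC1 hCi in
theorem parity_eq {Φ : Finset R} (hΦ : IsHalf inv Φ) (v : R → ℤ) (hv : ∀ x, v (inv x) = -v x)
    (l : ℤ) (hl : ∀ x, ∑ y, C x y * v y = 2 * l * v x) (x : R) :
    (2 : ℤ) ∣ (l + 1) * v x - ∑ y ∈ Φ, v y := by
  have h1 := hΦ.sum_symm hinv (fun y => C x y * v y) (fun y => by
    simp only [hCi, hv]; ring)
  rw [hl x] at h1
  have h2 : ∑ y ∈ Φ, C x y * v y = l * v x := by linarith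
  have h3 : ∀ y ∈ Φ, (2 : ℤ) ∣ C x y * v y - v y + (if y = x then v y else 0) +
      (if y = inv x then v y else 0) := by
    intro y _
    by_cases h5 : y = x
    · rw [hC0 x y (Or.inl h5), if_pos h5, if_neg (by rw [h5]; exact (hne x).symm)]
      exact ⟨0, by ring⟩
    · by_cases h6 : y = inv x
      · rw [hC0 x y (Or.inr h6), if_neg h5, if_pos h6]
        exact ⟨0, by ring⟩
      · rw [if_neg h5, if_neg h6]
        rcases hC1 x y h5 h6 with h | h <;> rw [h]
        · exact ⟨0, by ring⟩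
        · exact ⟨-v y, by ring⟩
  have h4 := Finset.dvd_sum h3
  rw [Finset.sum_add_distrib, Finset.sum_add_distrib, Finset.sum_sub_distrib, h2,
    Finset.sum_ite_eq', Finset.sum_ite_eq'] at h4
  by_cases h5 : x ∈ Φ
  · rw [if_pos h5, if_neg ((hΦ x).1 h5)] at h4
    obtain ⟨t, ht⟩ := h4
    exact ⟨t, by linarith⟩
  · have h6 : inv x ∈ Φ := by
      rw [hΦ x, not_not] at h5
      exact h5
    rw [if_neg h5, if_pos h6, hv] at h4
    obtain ⟨t, ht⟩ := h4
    exact ⟨t + v x, by linarith⟩

include hinv hne hC0 hC1 hCi in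
theorem full_of_even (v : R → ℤ) (hv : ∀ x, v (inv x) = -v x)
    (l : ℤ) (hle : Even l) (hl : ∀ x, ∑ y, C x y * v y = 2 * l * v x) (hv0 : ∃ x, v x ≠ 0) (x : R) :
    v x ≠ 0 := by
  obtain ⟨x₀, hx₀⟩ := hv0
  obtain ⟨v', h1, h2⟩ := Finset.extract_gcd (s := (Finset.univ : Finset R)) v ⟨x₀, Finset.mem_univ _⟩
  set d := Finset.univ.gcd v with hd
  have hd0 : d ≠ 0 := by
    intro h
    apply hx₀
    rw [h1 x₀ (Finset.mem_univ _), h, zero_mul]
  have hv' : ∀ x, v' (inv x) = -v' x := by
    intro x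
    have := hv x
    rw [h1 x (Finset.mem_univ _), h1 (inv x) (Finset.mem_univ _)] at this
    apply mul_left_cancel₀ hd0
    rw [this]; ring
  have hl' : ∀ x, ∑ y, C x y * v' y = 2 * l * v' x := by
    intro x
    apply mul_left_cancel₀ hd0
    rw [Finset.mul_sum]
    calc ∑ y, d * (C x y * v' y) = ∑ y, C x y * v y :=
          Finset.sum_congr rfl fun y _ => by rw [h1 y (Finset.mem_univ _)]; ring
      _ = 2 * l * v x := hl x
      _ = _ := by rw [h1 x (Finset.mem_univ _)]; ring
  obtain ⟨Φ, hΦ⟩ := exists_isHalf hinv hne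
  have hpar := parity_eq hinv hne C hC0 hC1 hCi hΦ v' hv' l hl'
  obtain ⟨z, hz⟩ : ∃ z, ¬ (2 : ℤ) ∣ v' z := by
    by_contra hall
    push Not at hall
    have h3 : (2 : ℤ) ∣ Finset.univ.gcd v' := Finset.dvd_gcd fun x _ => hall x
    rw [h2] at h3
    norm_num at h3
  have h4 : ¬ (2 : ℤ) ∣ v' x := by
    intro h5
    apply hz
    have h6 := hpar x
    have h7 := hpar z
    obtain ⟨e, he⟩ := hle
    have h8 : (2 : ℤ) ∣ ∑ y ∈ Φ, v' y := by
      have : (2 : ℤ) ∣ (l + 1) * v' x := Dvd.dvd.mul_left h5 _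
      have h9 := dvd_sub this h6
      simpa using h9
    have h9 : (2 : ℤ) ∣ (l + 1) * v' z := by
      have := dvd_add h7 h8
      simpa using this
    have h10 : (2 : ℤ) ∣ (l + 1) * v' z - 2 * (e * v' z) := dvd_sub h9 (Dvd.intro _ rfl)
    rw [he] at h10
    have h11 : (e + e + 1) * v' z - 2 * (e * v' z) = v' z := by ring
    rwa [h11] at h10
  rw [h1 x (Finset.mem_univ _)]
  refine mul_ne_zero hd0 fun h => h4 (by rw [h]; exact dvd_zero _)

include hinv hne hC0 hC1 hCi in
theorem full_of_max (n : ℕ) (hcard : Fintype.card R = 2 * n) (v : R → ℤ)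
    (hv : ∀ x, v (inv x) = -v x)
    (l : ℤ) (hle : |l| = (n : ℤ) - 1) (hl : ∀ x, ∑ y, C x y * v y = 2 * l * v x)
    (hv0 : ∃ x, v x ≠ 0) (x : R) : v x ≠ 0 := by
  obtain ⟨x₀, hx₀⟩ := hv0
  obtain ⟨z, _, hz⟩ := Finset.exists_max_image (Finset.univ : Finset R) (fun y => |v y|)
    ⟨x₀, Finset.mem_univ _⟩
  have hM : 0 < |v z| := lt_of_lt_of_le (abs_pos.2 hx₀) (hz x₀ (Finset.mem_univ _))
  intro hx
  have h1 : ∑ y, |C z y * v y| < (2 * ((n : ℤ) - 1)) * |v z| ∨ x = z ∨ x = inv z := by
    by_cases h5 : x = z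
    · exact Or.inr (Or.inl h5)
    · by_cases h6 : x = inv z
      · exact Or.inr (Or.inr h6)
      · left
        have h7 : ∑ y, (1 - (if y = z then 1 else 0) - (if y = inv z then 1 else 0)) * |v z| =
            (2 * ((n : ℤ) - 1)) * |v z| := by
          rw [← Finset.sum_mul]
          congr 1
          simp only [Finset.sum_sub_distrib, Finset.sum_ite_eq', Finset.mem_univ, if_true,
            Finset.sum_const, Finset.card_univ, hcard, nsmul_eq_mul, mul_one]
          push_cast
          ring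
        rw [← h7]
        refine Finset.sum_lt_sum (fun y _ => ?_) ⟨x, Finset.mem_univ _, ?_⟩
        · by_cases h8 : y = z
          · rw [hC0 z y (Or.inl h8), if_pos h8, if_neg (by rw [h8]; exact (hne z).symm)]
            simp
          · by_cases h9 : y = inv z
            · rw [hC0 z y (Or.inr h9), if_neg h8, if_pos h9]
              simp
            · rw [if_neg h8, if_neg h9, abs_mul]
              have h10 : |C z y| = 1 := by
                rcases hC1 z y h8 h9 with h | h <;> rw [h] <;> simp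
              rw [h10]
              have := hz y (Finset.mem_univ _)
              linarith
        · rw [if_neg h5, if_neg h6, hx]
          simpa using hM
  rcases h1 with h1 | h1 | h1
  · have h2 : |∑ y, C z y * v y| ≤ ∑ y, |C z y * v y| := Finset.abs_sum_le_sum_abs _ _
    rw [hl z, abs_mul, abs_mul, hle, abs_two] at h2
    linarith
  · rw [h1] at hx
    rw [hx] at hM
    simp at hM
  · rw [h1, hv] at hx
    have : v z = 0 := by linarith
    rw [this] at hM
    simp at hM

include hCg in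
theorem signType_of_full [MulAction.IsPretransitive G R] (v : R → ℤ)
    (hG : ∀ (g : G) (x : R), g • inv x = inv (g • x))
    (hv : ∀ x, v (inv x) = -v x) (l : ℤ) (hl : ∀ x, ∑ y, C x y * v y = 2 * l * v x)
    (hfull : ∀ u : R → ℤ, (∀ x, u (inv x) = -u x) → (∀ x, ∑ y, C x y * u y = 2 * l * u x) →
      (∃ x, u x ≠ 0) → ∀ x, u x ≠ 0) (hv0 : ∃ x, v x ≠ 0) : SignType G v := by
  obtain ⟨x₀, hx₀⟩ := hv0
  obtain ⟨z, _, hz⟩ := Finset.exists_max_image (Finset.univ : Finset R) (fun y => |v y|)
    ⟨x₀, Finset.mem_univ _⟩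
  have hM : 0 < |v z| := lt_of_lt_of_le (abs_pos.2 hx₀) (hz x₀ (Finset.mem_univ _))
  have key : ∀ (g : G) (x : R), v z * v (g • x) = v (g • z) * v x := by
    intro g x
    by_contra hcon
    have h1 := hfull (fun x => v z * v (g • x) - v (g • z) * v x) (by
      intro x; simp only [hG, hv]; ring) (by
      intro x
      have h2 : ∀ y, C x y * (v z * v (g • y) - v (g • z) * v y) =
          v z * (C (g • x) (g • y) * v (g • y)) - v (g • z) * (C x y * v y) := by
        intro y; rw [hCg]; ring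
      rw [Finset.sum_congr rfl fun y _ => h2 y, Finset.sum_sub_distrib, ← Finset.mul_sum,
        ← Finset.mul_sum, hl x]
      have h3 : ∑ y, C (g • x) (g • y) * v (g • y) = ∑ y, C (g • x) y * v y :=
        Fintype.sum_equiv (MulAction.toPerm g) _ _ fun y => rfl
      rw [h3, hl (g • x)]
      ring) ⟨x, fun h => hcon (by linarith)⟩ z
    apply h1
    ring
  have habs : ∀ g : G, |v (g • z)| = |v z| := by
    intro g
    have h1 := key g (g⁻¹ • z)
    rw [smul_inv_smul] at h1
    have h2 : |v z| * |v z| = |v (g • z)| * |v (g⁻¹ • z)| := by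
      rw [← abs_mul, ← abs_mul, h1]
    have h3 := hz (g • z) (Finset.mem_univ _)
    have h4 := hz (g⁻¹ • z) (Finset.mem_univ _)
    apply le_antisymm h3
    by_contra h5
    push Not at h5
    have h6 : |v (g • z)| * |v (g⁻¹ • z)| < |v z| * |v z| := by
      calc |v (g • z)| * |v (g⁻¹ • z)| ≤ |v (g • z)| * |v z| :=
            mul_le_mul_of_nonneg_left h4 (abs_nonneg _)
        _ < |v z| * |v z| := mul_lt_mul_of_pos_right h5 hM
    omega
  have hz0 : v z ≠ 0 := abs_pos.1 hM
  intro g
  rcases abs_eq_abs.1 (habs g) with h | h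
  · left
    intro x
    have := key g x
    rw [h] at this
    exact mul_left_cancel₀ hz0 this
  · right
    intro x
    have := key g x
    rw [h] at this
    apply mul_left_cancel₀ hz0
    rw [this]; ring

end eig

/-- **Doubly transitive theorem.**  If `n` is odd, or `n - 1` is a prime or one, a nontrivial
relation `c` for `w` forces `c` or `w` to be of sign type. -/
theorem signType_of_rel [MulAction.IsPretransitive G R]
    (hinv : ∀ x, inv (inv x) = x) (hne : ∀ x, inv x ≠ x)
    (hG : ∀ (g : G) (x : R), g • inv x = inv (g • x))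
    (h2 : ∀ x y x' y' : R, y ≠ x → y ≠ inv x → y' ≠ x' → y' ≠ inv x' →
      ∃ g : G, (g • x = x' ∨ g • x = inv x') ∧ (g • y = y' ∨ g • y = inv y'))
    (n : ℕ) (hcard : Fintype.card R = 2 * n) (hn : Odd n ∨ n = 2 ∨ (n - 1).Prime)
    (c w : R → ℤ) (hc : ∀ x, c (inv x) = -c x) (hw : ∀ x, w (inv x) = -w x)
    (hc0 : ∃ x, c x ≠ 0) (hw0 : ∃ x, w x ≠ 0)
    (hrel : ∀ g : G, ∑ x, c x * w (g • x) = 0) : SignType G c ∨ SignType G w := by
  obtain ⟨C, a, a', ha, ha', haa, hC0, hC1, hCg, hCi, hCw, hCc⟩ :=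
    twograph hinv hne hG h2 n hcard c w hc hw hc0 hw0 hrel
  have hCw' : ∀ x, ∑ y, C x y * w y = 2 * (-a) * w x := fun x => by rw [hCw x]; ring
  have fin_even : ∀ (v : R → ℤ) (l : ℤ), (∀ x, v (inv x) = -v x) → Even l →
      (∀ x, ∑ y, C x y * v y = 2 * l * v x) → (∃ x, v x ≠ 0) → SignType G v := by
    intro v l hv hle hl hv0
    exact signType_of_full C hCg v hG hv l hl
      (fun u hu hlu hu0 => full_of_even hinv hne C hC0 hC1 hCi u hu l hle hlu hu0) hv0
  have fin_max : ∀ (v : R → ℤ) (l : ℤ), (∀ x, v (inv x) = -v x) → |l| = (n : ℤ) - 1 →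
      (∀ x, ∑ y, C x y * v y = 2 * l * v x) → (∃ x, v x ≠ 0) → SignType G v := by
    intro v l hv hle hl hv0
    exact signType_of_full C hCg v hG hv l hl
      (fun u hu hlu hu0 => full_of_max hinv hne C hC0 hC1 hCi n hcard u hu l hle hlu hu0) hv0
  rcases hn with hn | hn
  · have h3 : Even (a * a') := by
      rw [haa]
      obtain ⟨t, rfl⟩ := hn
      exact ⟨t, by push_cast; ring⟩
    rcases Int.even_mul.1 h3 with h4 | h4
    · exact Or.inr (fin_even w (-a) hw h4.neg hCw' hw0)
    · exact Or.inl (fin_even c a' hc h4 hCc hc0)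
  · have h3 : a = 1 ∨ a' = 1 := by
      rcases hn with hn | hn
      · subst hn
        norm_num at haa
        exact Or.inl (Int.eq_one_of_mul_eq_one_right ha.le haa)
      · have hn1 : 1 ≤ n := by
          by_contra h
          have : n - 1 = 0 := by omega
          rw [this] at hn
          exact Nat.not_prime_zero hn
        have h4 : a.natAbs * a'.natAbs = n - 1 := by
          rw [← Int.natAbs_mul, haa]
          omega
        rcases (Nat.dvd_prime hn).1 (Dvd.intro _ h4) with h5 | h5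
        · left; omega
        · right
          rw [h5] at h4
          have h6 : a'.natAbs = 1 := by
            have h7 := hn.pos
            have h8 : (n - 1) * a'.natAbs = (n - 1) * 1 := by rw [h4, mul_one]
            exact Nat.eq_of_mul_eq_mul_left h7 h8
          omega
    rcases h3 with h3 | h3
    · left
      apply fin_max c a' hc _ hCc hc0
      rw [h3, one_mul] at haa
      rw [abs_of_pos ha', haa]
    · right
      apply fin_max w (-a) hw _ hCw' hw0
      rw [h3, mul_one] at haa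
      rw [abs_neg, abs_of_pos ha, haa]

/-- **Doubly transitive parity theorem.**  If the sum of `w` over half systems is odd, a nontrivial
relation forces `w` to be of sign type. -/
theorem signType_of_parity [MulAction.IsPretransitive G R]
    (hinv : ∀ x, inv (inv x) = x) (hne : ∀ x, inv x ≠ x)
    (hG : ∀ (g : G) (x : R), g • inv x = inv (g • x))
    (h2 : ∀ x y x' y' : R, y ≠ x → y ≠ inv x → y' ≠ x' → y' ≠ inv x' →
      ∃ g : G, (g • x = x' ∨ g • x = inv x') ∧ (g • y = y' ∨ g • y = inv y'))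
    (n : ℕ) (hcard : Fintype.card R = 2 * n)
    (c w : R → ℤ) (hc : ∀ x, c (inv x) = -c x) (hw : ∀ x, w (inv x) = -w x)
    (hc0 : ∃ x, c x ≠ 0) (hodd : ∀ Φ : Finset R, IsHalf inv Φ → ¬ (2 : ℤ) ∣ ∑ x ∈ Φ, w x)
    (hrel : ∀ g : G, ∑ x, c x * w (g • x) = 0) : SignType G w := by
  obtain ⟨Φ, hΦ⟩ := exists_isHalf hinv hne
  have hw0 : ∃ x, w x ≠ 0 := by
    by_contra h
    push Not at h
    apply hodd Φ hΦ
    rw [Finset.sum_congr rfl fun x _ => h x]
    simp
  obtain ⟨C, a, a', ha, ha', haa, hC0, hC1, hCg, hCi, hCw, hCc⟩ :=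
    twograph hinv hne hG h2 n hcard c w hc hw hc0 hw0 hrel
  have hCw' : ∀ x, ∑ y, C x y * w y = 2 * (-a) * w x := fun x => by rw [hCw x]; ring
  rcases Int.even_or_odd a with h3 | h3
  · exact signType_of_full C hCg w hG hw (-a) hCw'
      (fun u hu hlu hu0 => full_of_even hinv hne C hC0 hC1 hCi u hu (-a) h3.neg hlu hu0) hw0
  · exfalso
    obtain ⟨x, _⟩ := hc0
    have h4 := parity_eq hinv hne C hC0 hC1 hCi hΦ w hw (-a) hCw' x
    obtain ⟨t, ht⟩ := h3
    apply hodd Φ hΦ
    have h5 : (2 : ℤ) ∣ (-a + 1) * w x := ⟨-t * w x, by rw [ht]; ring⟩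
    have h6 := dvd_sub h5 h4
    simpa using h6

end twotrans

end Pool.Agent.H925R2
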