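import Mathlib
import Pool.Agent.H925R2.Core
import Pool.Agent.H925R2.Bridge
import Pool.Agent.H925R2.TwoTrans

/-!
# A sign type vector gives an imaginary quadratic subfield
-/

namespace Pool.Agent.H925R2

open Polynomial

theorem exists_base_of_fixed {F : Type*} [Field F] {f : F[X]} (hsep : f.Separable)
    (z : f.SplittingField) (hz : ∀ g : f.Gal, g z = z) : ∃ a : F, algebraMap F _ a = z := by
  have _ : IsGalois F f.SplittingField := IsGalois.of_separable_splitting_field hsep
  exact (IsGalois.mem_range_algebraMap_iff_fixed z).2 hz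

theorem exists_aeval_of_fixed {F : Type*} [Field F] {f : F[X]} (hsep : f.Separable)
    (x₀ : f.SplittingField) (z : f.SplittingField)
    (hz : ∀ g : f.Gal, g x₀ = x₀ → g z = z) : ∃ P : F[X], aeval x₀ P = z := by
  have _ : IsGalois F f.SplittingField := IsGalois.of_separable_splitting_field hsep
  have h1 : z ∈ IntermediateField.adjoin F {x₀} := by
    rw [← IsGalois.fixedField_fixingSubgroup (IntermediateField.adjoin F {x₀})]
    rintro ⟨g, hg⟩
    apply hz g
    exact (IntermediateField.mem_fixingSubgroup_iff _ _).1 hg x₀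
      (IntermediateField.mem_adjoin_simple_self F x₀)
  have h2 : z ∈ (IntermediateField.adjoin F {x₀}).toSubalgebra := h1
  rw [IntermediateField.adjoin_simple_toSubalgebra_of_isAlgebraic
    (Algebra.IsAlgebraic.isAlgebraic (R := F) x₀), Algebra.adjoin_singleton_eq_range_aeval] at h2
  exact h2

/-- power sums weighted by an injective family are not all zero -/
theorem exists_powersum_ne {R E : Type*} [Fintype R] [Field E] (t : R → E)
    (ht : Function.Injective t) (v : R → E) (hv : ∃ x, v x ≠ 0) : ∃ i : ℕ, ∑ x, v x * t x ^ i ≠ 0 := by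
  by_contra hcon
  push Not at hcon
  obtain ⟨x, hx⟩ := hv
  let e := Fintype.equivFin R
  have h1 : (v ∘ e.symm) = 0 := by
    apply Matrix.eq_zero_of_forall_pow_sum_mul_pow_eq_zero (f := t ∘ e.symm)
      (ht.comp e.symm.injective)
    intro i
    rw [← hcon i]
    exact Fintype.sum_equiv e.symm _ _ fun j => rfl
  apply hx
  have := congrFun h1 (e x)
  simpa using this

section quad

variable {f : ℚ[X]} (hf : Irreducible f) {q : ℚ} (hq : 0 < q)
  (hweil : ∀ z : ℂ, aeval z f = 0 → ‖z‖ ^ 2 = (q : ℝ))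

/-- A nonzero antisymmetric sign type vector on the roots produces a square root of a negative
integer in `ℚ[X] / (f)`. -/
theorem exists_sqrt_neg (v : f.rootSet f.SplittingField → ℤ)
    (hv : ∀ x, v (rinv hf hq hweil x) = - v x) (hv0 : ∃ x, v x ≠ 0) (hs : SignType f.Gal v) :
    ∃ (z : AdjoinRoot f) (n : ℕ), 0 < n ∧ z ^ 2 = -(n : AdjoinRoot f) := by
  classical
  have _ : MulAction.IsPretransitive f.Gal (f.rootSet f.SplittingField) := gal_pretransitive hf
  have hfull : ∀ x, v x ≠ 0 := by
    obtain ⟨x₀, hx₀⟩ := hv0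
    intro x
    obtain ⟨g, hg⟩ := MulAction.exists_smul_eq f.Gal x x₀
    intro h
    rcases hs g with h1 | h1
    · apply hx₀; rw [← hg, h1 x, h]
    · apply hx₀; rw [← hg, h1 x, h]; rfl
  obtain ⟨i, hi⟩ := exists_powersum_ne (fun x : f.rootSet f.SplittingField => x.1)
    Subtype.val_injective (fun x => ((v x : ℤ) : f.SplittingField)) (by
      obtain ⟨x, hx⟩ := hv0
      exact ⟨x, by exact_mod_cast hx⟩)
  set z := ∑ x : f.rootSet f.SplittingField, ((v x : ℤ) : f.SplittingField) * x.1 ^ i with hz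
  -- action of the Galois group
  have hact : ∀ g : f.Gal, g z = ∑ y : f.rootSet f.SplittingField,
      ((v (g⁻¹ • y) : ℤ) : f.SplittingField) * y.1 ^ i := by
    intro g
    rw [hz, map_sum]
    refine Fintype.sum_equiv (MulAction.toPerm g) _ _ fun x => ?_
    rw [MulAction.toPerm_apply, inv_smul_smul, map_mul, map_pow, map_intCast, smul_coe]
  have hpm : ∀ g : f.Gal, (g z = z ∧ ∀ x, v (g⁻¹ • x) = v x) ∨
      (g z = -z ∧ ∀ x, v (g⁻¹ • x) = - v x) := by
    intro g
    rcases hs g⁻¹ with h | h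
    · left
      refine ⟨?_, h⟩
      rw [hact g, hz]
      exact Finset.sum_congr rfl fun x _ => by rw [h]
    · right
      refine ⟨?_, h⟩
      rw [hact g, hz, ← Finset.sum_neg_distrib]
      exact Finset.sum_congr rfl fun x _ => by rw [h]; push_cast; ring
  obtain ⟨x₀, _⟩ := hv0
  obtain ⟨P, hP⟩ := exists_aeval_of_fixed hf.separable x₀.1 z (by
    intro g hg
    rcases hpm g with h | h
    · exact h.1
    · exfalso
      have h1 : g • x₀ = x₀ := Subtype.ext hg
      have h2 := h.2 x₀
      have h3 : g⁻¹ • x₀ = x₀ := by rw [inv_smul_eq_iff]; exact h1.symm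
      rw [h3] at h2
      exact hfull x₀ (by omega))
  obtain ⟨b, hb⟩ := exists_base_of_fixed hf.separable (z ^ 2) (by
    intro g
    rcases hpm g with h | h <;> rw [map_pow, h.1]
    ring)
  -- positivity
  let τ : f.SplittingField →ₐ[ℚ] ℂ := IsAlgClosed.lift
  have hconj : ∀ x : f.rootSet f.SplittingField,
      starRingEnd ℂ (τ x.1) = τ (rinv hf hq hweil x).1 := by
    intro x
    have hx := (mem_rootSet.1 x.2).2
    have hx0 : τ x.1 ≠ 0 := fun h => root_ne_zero hq hweil x.1 hx ((map_eq_zero τ).1 h)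
    have h1 : aeval (τ x.1) f = 0 := by rw [aeval_algHom_apply, hx, map_zero]
    rw [rinv_coe, map_div₀, map_ratCast, eq_div_iff hx0, mul_comm, Complex.mul_conj,
      Complex.normSq_eq_norm_sq, hweil _ h1]
    simp
  have hzc : starRingEnd ℂ (τ z) = - τ z := by
    rw [hz, map_sum, map_sum, ← Finset.sum_neg_distrib]
    refine Finset.sum_nbij' (rinv hf hq hweil) (rinv hf hq hweil) (fun _ _ => Finset.mem_univ _)
        (fun _ _ => Finset.mem_univ _) (fun x _ => rinv_rinv hf hq hweil x)
        (fun x _ => rinv_rinv hf hq hweil x) (fun x _ => ?_)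
    rw [map_mul, map_mul, map_mul, map_pow, map_pow, map_pow, map_intCast, map_intCast,
      map_intCast, hconj, hv]
    push_cast
    ring
  have hτz : τ z ≠ 0 := fun h => hi ((map_eq_zero τ).1 h)
  have hbneg : b < 0 := by
    have h1 : (τ z) ^ 2 = ((b : ℚ) : ℂ) := by
      rw [← map_pow, ← hb]
      simp
    have h2 : (τ z) * starRingEnd ℂ (τ z) = ((‖τ z‖ ^ 2 : ℝ) : ℂ) := by
      rw [Complex.mul_conj, Complex.normSq_eq_norm_sq]
    rw [hzc] at h2
    have h3 : (((b : ℝ)) : ℂ) = ((-(‖τ z‖ ^ 2) : ℝ) : ℂ) := by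
      push_cast
      have h4 : (τ z) ^ 2 = - ((‖τ z‖ : ℂ) ^ 2) := by
        have : (τ z) ^ 2 = - (τ z * -τ z) := by ring
        rw [this, h2]; push_cast; ring
      rw [← h4, h1]
    have h5 : (b : ℝ) = -(‖τ z‖ ^ 2) := by exact_mod_cast h3
    have h6 : 0 < ‖τ z‖ ^ 2 := pow_pos (norm_pos_iff.2 hτz) 2
    have h7 : (b : ℝ) < 0 := by rw [h5]; linarith
    exact_mod_cast h7
  -- the embedding of `AdjoinRoot f`
  let φ : AdjoinRoot f →+* f.SplittingField :=
    AdjoinRoot.lift (algebraMap ℚ f.SplittingField) x₀.1 (by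
      have := (mem_rootSet.1 x₀.2).2
      rwa [aeval_def] at this)
  have _ : Fact (Irreducible f) := ⟨hf⟩
  have hφinj : Function.Injective φ := φ.injective
  have hφP : φ (AdjoinRoot.mk f P) = z := by
    change AdjoinRoot.lift _ _ _ (AdjoinRoot.mk f P) = z
    rw [AdjoinRoot.lift_mk, ← hP, aeval_def]
    rfl
  refine ⟨(b.den : AdjoinRoot f) * AdjoinRoot.mk f P, b.num.natAbs * b.den, ?_, ?_⟩
  · have h1 : b.num ≠ 0 := Rat.num_ne_zero.2 hbneg.ne
    exact Nat.mul_pos (Int.natAbs_pos.2 h1) b.den_pos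
  · apply hφinj
    rw [map_pow, map_mul, map_natCast, hφP, map_neg, map_natCast, mul_pow]
    have h1 : z ^ 2 = ((b : ℚ) : f.SplittingField) := by
      rw [← hb]
      simp
    rw [h1]
    have h2 : ((b.den : ℚ)) ^ 2 * b = -((b.num.natAbs * b.den : ℕ) : ℚ) := by
      have h3 : ((b.num.natAbs : ℕ) : ℚ) = -(b.num : ℚ) := by
        have h4 : b.num < 0 := Rat.num_neg.2 hbneg
        rw [Nat.cast_natAbs, abs_of_neg h4]
        push_cast
        rfl
      push_cast
      push_cast at h3
      rw [h3]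
      have h6 : (b.den : ℚ) * b = b.num := by
        rw [mul_comm]; exact Rat.mul_den_eq_num b
      calc (b.den : ℚ) ^ 2 * b = b.den * (b.den * b) := by ring
        _ = _ := by rw [h6]; ring
    have h7 := congrArg (Rat.cast (K := f.SplittingField)) h2
    push_cast at h7 ⊢
    exact h7

end quad

end Pool.Agent.H925R2
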