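import Mathlib
import Pool.Agent.H925R2.Rational
import Pool.Agent.H925R2.Quad

/-!
# No nontrivial relations in the doubly transitive case
-/

namespace Pool.Agent.H925R2

open Polynomial

section

variable {f : ℚ[X]} (hf : Irreducible f) {q : ℚ} (hq : 0 < q)
  (hweil : ∀ z : ℂ, aeval z f = 0 → ‖z‖ ^ 2 = (q : ℝ))

/-- (A) doubly transitive, `g` odd or `g = 2` or `g - 1` prime, no imaginary quadratic subfield,
not supersingular: no nontrivial relation. -/
theorem norel_A (p : ℕ) [Fact p.Prime] (e : f.SplittingField →ₐ[ℚ] PadicAlgCl p)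
    (n : ℕ) (hdeg : f.natDegree = 2 * n) (hn : Odd n ∨ n = 2 ∨ (n - 1).Prime)
    (hdt : DoublyTransitive f q)
    (hK : ∀ (z : AdjoinRoot f) (t : ℕ), 0 < t → z ^ 2 ≠ -(t : AdjoinRoot f))
    (hns : ∃ α : PadicAlgCl p, aeval α f = 0 ∧ dev p q α ≠ 0)
    (c : f.rootSet f.SplittingField → ℤ) (hc : ∀ x, c (rinv hf hq hweil x) = - c x)
    (hrel : ∀ g : f.Gal, ∑ x : f.rootSet f.SplittingField, (c x : ℝ) *
        dev p q (e (g • x : f.rootSet f.SplittingField).1) = 0) : ∀ x, c x = 0 := by
  classical
  by_contra hcon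
  push Not at hcon
  obtain ⟨κ, U, hκ, hU⟩ := exists_int_dev p hf.ne_zero
    (padic_root_ne_zero hf hq hweil p) hq.ne'
  have _ : MulAction.IsPretransitive f.Gal (f.rootSet f.SplittingField) := gal_pretransitive hf
  have _ : Fintype f.Gal := Fintype.ofFinite _
  have hroot : ∀ x : f.rootSet f.SplittingField, aeval (e x.1) f = 0 := by
    intro x
    rw [aeval_algHom_apply, (mem_rootSet.1 x.2).2, map_zero]
  have hwanti : ∀ x : f.rootSet f.SplittingField,
      U (e (rinv hf hq hweil x).1) = - U (e x.1) := by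
    intro x
    have h1 := dev_rinv hf hq hweil p e x
    rw [hU _ (hroot _), hU _ (hroot _), ← mul_neg] at h1
    have h2 := mul_left_cancel₀ hκ.ne' h1
    exact_mod_cast h2
  have hw0 : ∃ x : f.rootSet f.SplittingField, U (e x.1) ≠ 0 := by
    obtain ⟨α, hα, hd⟩ := hns
    obtain ⟨y, rfl⟩ := exists_root_eq hf e α hα
    refine ⟨y, fun h => hd ?_⟩
    rw [hU _ hα, h]; simp
  have hrel' : ∀ g : f.Gal, ∑ x : f.rootSet f.SplittingField,
      c x * U (e (g • x : f.rootSet f.SplittingField).1) = 0 := by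
    intro g
    have h1 := hrel g
    have h2 : ∀ x : f.rootSet f.SplittingField, (c x : ℝ) *
        dev p q (e (g • x : f.rootSet f.SplittingField).1) =
        κ * ((c x * U (e (g • x : f.rootSet f.SplittingField).1) : ℤ) : ℝ) := by
      intro x
      rw [hU _ (hroot _)]
      push_cast
      ring
    rw [Finset.sum_congr rfl (fun x _ => h2 x), ← Finset.mul_sum] at h1
    have h3 := (mul_eq_zero.1 h1).resolve_left hκ.ne'
    exact_mod_cast h3
  rcases signType_of_rel (G := f.Gal) (inv := rinv hf hq hweil) (rinv_rinv hf hq hweil)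
    (rinv_ne_of_dev hf hq hweil p e hns) (smul_rinv hf hq hweil)
    (pairs_of_doublyTransitive hf hq hweil hdt) n (by rw [card_roots hf, hdeg]) hn c
    (fun x => U (e x.1)) hc hwanti hcon hw0 hrel' with h | h
  · obtain ⟨z, t, ht, hz⟩ := exists_sqrt_neg hf hq hweil c hc hcon h
    exact hK z t ht hz
  · obtain ⟨z, t, ht, hz⟩ := exists_sqrt_neg hf hq hweil _ hwanti hw0 h
    exact hK z t ht hz

/-- (B) doubly transitive, deviation sums over half systems odd, deviations not all equal up to
sign: no nontrivial relation. -/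
theorem norel_B (p : ℕ) [Fact p.Prime] (e : f.SplittingField →ₐ[ℚ] PadicAlgCl p)
    (n : ℕ) (hdeg : f.natDegree = 2 * n)
    (hdt : DoublyTransitive f q)
    (κ : ℝ) (hκ : κ ≠ 0) (U : PadicAlgCl p → ℤ)
    (hU : ∀ α : PadicAlgCl p, aeval α f = 0 → dev p q α = κ * U α)
    (hodd : ∀ Φ : Finset (PadicAlgCl p), (∀ α ∈ Φ, aeval α f = 0) →
      (∀ α, aeval α f = 0 → (α ∈ Φ ↔ (q : PadicAlgCl p) / α ∉ Φ)) → ¬ (2 : ℤ) ∣ ∑ α ∈ Φ, U α)
    (hne : ∃ α β : PadicAlgCl p, aeval α f = 0 ∧ aeval β f = 0 ∧ |U α| ≠ |U β|)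
    (c : f.rootSet f.SplittingField → ℤ) (hc : ∀ x, c (rinv hf hq hweil x) = - c x)
    (hrel : ∀ g : f.Gal, ∑ x : f.rootSet f.SplittingField, (c x : ℝ) *
        dev p q (e (g • x : f.rootSet f.SplittingField).1) = 0) : ∀ x, c x = 0 := by
  classical
  by_contra hcon
  push Not at hcon
  have _ : MulAction.IsPretransitive f.Gal (f.rootSet f.SplittingField) := gal_pretransitive hf
  have _ : Fintype f.Gal := Fintype.ofFinite _
  have hroot : ∀ x : f.rootSet f.SplittingField, aeval (e x.1) f = 0 := by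
    intro x
    rw [aeval_algHom_apply, (mem_rootSet.1 x.2).2, map_zero]
  have hwanti : ∀ x : f.rootSet f.SplittingField,
      U (e (rinv hf hq hweil x).1) = - U (e x.1) := by
    intro x
    have h1 := dev_rinv hf hq hweil p e x
    rw [hU _ (hroot _), hU _ (hroot _), ← mul_neg] at h1
    have h2 := mul_left_cancel₀ hκ h1
    exact_mod_cast h2
  have hns : ∃ α : PadicAlgCl p, aeval α f = 0 ∧ dev p q α ≠ 0 := by
    obtain ⟨α, β, hα, hβ, hab⟩ := hne
    by_contra hall
    push Not at hall
    have h1 := hall α hα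
    have h2 := hall β hβ
    rw [hU α hα, mul_eq_zero] at h1
    rw [hU β hβ, mul_eq_zero] at h2
    have h3 := h1.resolve_left hκ
    have h4 := h2.resolve_left hκ
    apply hab
    have h5 : U α = 0 := by exact_mod_cast h3
    have h6 : U β = 0 := by exact_mod_cast h4
    rw [h5, h6]
  have hrel' : ∀ g : f.Gal, ∑ x : f.rootSet f.SplittingField,
      c x * U (e (g • x : f.rootSet f.SplittingField).1) = 0 := by
    intro g
    have h1 := hrel g
    have h2 : ∀ x : f.rootSet f.SplittingField, (c x : ℝ) *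
        dev p q (e (g • x : f.rootSet f.SplittingField).1) =
        κ * ((c x * U (e (g • x : f.rootSet f.SplittingField).1) : ℤ) : ℝ) := by
      intro x
      rw [hU _ (hroot _)]
      push_cast
      ring
    rw [Finset.sum_congr rfl (fun x _ => h2 x), ← Finset.mul_sum] at h1
    have h3 := (mul_eq_zero.1 h1).resolve_left hκ
    exact_mod_cast h3
  have hst := signType_of_parity (G := f.Gal) (inv := rinv hf hq hweil) (rinv_rinv hf hq hweil)
    (rinv_ne_of_dev hf hq hweil p e hns) (smul_rinv hf hq hweil)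
    (pairs_of_doublyTransitive hf hq hweil hdt) n (by rw [card_roots hf, hdeg]) c
    (fun x => U (e x.1)) hc hwanti hcon (by
      intro Φ hΦ'
      have hinj : Function.Injective (fun x : f.rootSet f.SplittingField => e x.1) :=
        fun a b h => Subtype.ext (e.injective h)
      have h1 := hodd (Φ.image (fun x => e x.1)) (by
        intro α hα
        obtain ⟨x, _, rfl⟩ := Finset.mem_image.1 hα
        exact hroot x) (by
        intro α hα
        obtain ⟨x, rfl⟩ := exists_root_eq hf e α hα
        have h2 : (q : PadicAlgCl p) / e x.1 = e (rinv hf hq hweil x).1 := by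
          rw [rinv_coe, map_div₀, map_ratCast]
        rw [h2]
        have h3 : ∀ z : f.rootSet f.SplittingField, e z.1 ∈ Φ.image (fun x => e x.1) ↔ z ∈ Φ := by
          intro z
          rw [Finset.mem_image]
          constructor
          · rintro ⟨w, hw, hwz⟩
            rwa [← hinj hwz]
          · intro hz
            exact ⟨z, hz, rfl⟩
        rw [h3, h3]
        exact hΦ' x)
      rw [Finset.sum_image (fun a _ b _ h => hinj h)] at h1
      exact h1) hrel'
  obtain ⟨α, β, hα, hβ, hab⟩ := hne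
  obtain ⟨x, rfl⟩ := exists_root_eq hf e α hα
  obtain ⟨y, rfl⟩ := exists_root_eq hf e β hβ
  obtain ⟨g, hg⟩ := MulAction.exists_smul_eq f.Gal x y
  apply hab
  rcases hst g with h | h
  · have h1 : U (e y.1) = U (e x.1) := by
      have := h x
      rwa [hg] at this
    rw [h1]
  · have h1 : U (e y.1) = - U (e x.1) := by
      have := h x
      rwa [hg] at this
    rw [h1, abs_neg]

end

end Pool.Agent.H925R2
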