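import Mathlib
import Pool.Agent.H925R2.Rational
import Pool.Agent.H925R2.Quad

/-!
# One dominating pair of slopes
-/

namespace Pool.Agent.H925R2

set_option linter.unusedSectionVars false

section comb

variable {R : Type*} [Fintype R] [DecidableEq R] {inv : R → R}
variable {G : Type*} [Group G] [Finite G] [MulAction G R]

/-- The key inequality: if `c (g x₁)` is the maximum of `c`, then `c (g y)` is the maximum for
every `y ≠ inv x₁` with `w y` and `w x₁` of opposite sign; moreover the deviation sum is at least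
`4 |w x₁|`. -/
theorem dom_step
    (hinv : ∀ x, inv (inv x) = x) (hne : ∀ x, inv x ≠ x)
    (hG : ∀ (g : G) (x : R), g • inv x = inv (g • x))
    (w : R → ℝ) (c : R → ℤ) (hw : ∀ x, w (inv x) = -w x) (hc : ∀ x, c (inv x) = -c x)
    (hrel : ∀ g : G, ∑ x, (c x : ℝ) * w (g • x) = 0)
    (x₁ : R) (hx₁ : w x₁ ≠ 0) (hdom : ∑ x, |w x| ≤ 4 * |w x₁|)
    (M : ℤ) (hM : 0 < M) (hmax : ∀ x, c x ≤ M) (g : G) (hg : c (g • x₁) = M) :
    (∑ x, |w x| = 4 * |w x₁|) ∧
      ∀ y, y ≠ inv x₁ → w y * w x₁ < 0 → c (g • y) = M := by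
  classical
  have hM' : (0 : ℝ) < M := by exact_mod_cast hM
  have habs : ∀ x, |(c x : ℝ)| ≤ M := by
    intro x
    rw [abs_le]
    have h1 := hmax x
    have h2 := hmax (inv x)
    rw [hc] at h2
    constructor
    · have : -M ≤ c x := by omega
      exact_mod_cast this
    · exact_mod_cast h1
  have h1 : ∑ z, (c (g • z) : ℝ) * w z = 0 := by
    rw [← hrel g⁻¹]
    refine Fintype.sum_equiv (MulAction.toPerm g) _ _ fun z => ?_
    simp
  -- multiply by the sign of `w x₁`
  set sg : ℝ := ((_root_.SignType.sign (w x₁) : _root_.SignType) : ℝ) with hsg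
  have hsgw : w x₁ * sg = |w x₁| := by
    rw [mul_comm]; exact sign_mul_self _
  have hsg1 : |sg| = 1 := by
    rcases lt_or_gt_of_ne hx₁ with h | h
    · rw [hsg, sign_neg h]; simp
    · rw [hsg, sign_pos h]; simp
  have h2 : ∑ z, (c (g • z) : ℝ) * (w z * sg) = 0 := by
    have : ∑ z, (c (g • z) : ℝ) * (w z * sg) = (∑ z, (c (g • z) : ℝ) * w z) * sg := by
      rw [Finset.sum_mul]
      exact Finset.sum_congr rfl fun z _ => by ring
    rw [this, h1, zero_mul]
  -- lower bound for each term
  let T : R → ℝ := fun z => if z = x₁ ∨ z = inv x₁ then M * |w x₁| else -(M * |w z|)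
  have hT : ∀ z, T z ≤ (c (g • z) : ℝ) * (w z * sg) := by
    intro z
    by_cases h3 : z = x₁ ∨ z = inv x₁
    · change (if z = x₁ ∨ z = inv x₁ then M * |w x₁| else -(M * |w z|)) ≤ _
      rw [if_pos h3]
      rcases h3 with h3 | h3
      · rw [h3, hg, hsgw]
      · rw [h3, hG, hc, hg, hw]
        push_cast
        have h5 : -(M : ℝ) * (-w x₁ * sg) = M * (w x₁ * sg) := by ring
        rw [h5, hsgw]
    · change (if z = x₁ ∨ z = inv x₁ then M * |w x₁| else -(M * |w z|)) ≤ _
      rw [if_neg h3]
      have h4 : |(c (g • z) : ℝ) * (w z * sg)| ≤ M * |w z| := by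
        rw [abs_mul, abs_mul, hsg1, mul_one]
        exact mul_le_mul_of_nonneg_right (habs _) (abs_nonneg _)
      exact (abs_le.1 h4).1
  have hTsum : ∑ z, T z = M * (4 * |w x₁| - ∑ x, |w x|) := by
    have h3 : ∀ z, T z = -(M * |w z|) + (if z = x₁ then 2 * (M * |w x₁|) else 0) +
        (if z = inv x₁ then 2 * (M * |w x₁|) else 0) := by
      intro z
      change (if z = x₁ ∨ z = inv x₁ then M * |w x₁| else -(M * |w z|)) = _
      by_cases h4 : z = x₁
      · rw [if_pos (Or.inl h4), if_pos h4, if_neg (by rw [h4]; exact (hne x₁).symm), h4]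
        ring
      · by_cases h5 : z = inv x₁
        · rw [if_pos (Or.inr h5), if_neg h4, if_pos h5, h5, hw, abs_neg]
          ring
        · rw [if_neg (by tauto), if_neg h4, if_neg h5]
          ring
    rw [Finset.sum_congr rfl fun z _ => h3 z, Finset.sum_add_distrib, Finset.sum_add_distrib,
      Finset.sum_ite_eq', Finset.sum_ite_eq', Finset.sum_neg_distrib, ← Finset.mul_sum]
    simp only [Finset.mem_univ, if_true]
    ring
  have hTle : ∑ z, T z ≤ 0 := by
    rw [← h2]
    exact Finset.sum_le_sum fun z _ => hT z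
  have hTge : 0 ≤ ∑ z, T z := by
    rw [hTsum]
    exact mul_nonneg hM'.le (by linarith)
  have hT0 : ∑ z, T z = 0 := le_antisymm hTle hTge
  constructor
  · rw [hTsum] at hT0
    have := (mul_eq_zero.1 hT0).resolve_left hM'.ne'
    linarith
  · intro y hy1 hy2
    have hyx : y ≠ x₁ := by
      rintro rfl
      have := mul_self_nonneg (w y)
      linarith
    have hall : ∀ z ∈ (Finset.univ : Finset R), T z = (c (g • z) : ℝ) * (w z * sg) := by
      apply (Finset.sum_eq_sum_iff_of_le fun z _ => hT z).1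
      rw [hT0, h2]
    have h3 := hall y (Finset.mem_univ _)
    change (if y = x₁ ∨ y = inv x₁ then M * |w x₁| else -(M * |w y|)) = _ at h3
    rw [if_neg (by tauto)] at h3
    have h4 : w y * sg < 0 := by
      have h5 : (w y * sg) * |w x₁| = w y * w x₁ * (sg * sg) := by rw [← hsgw]; ring
      have h6 : sg * sg = 1 := by rw [← abs_mul_abs_self, hsg1]; norm_num
      rw [h6, mul_one] at h5
      have h7 : 0 < |w x₁| := abs_pos.2 hx₁
      by_contra h8
      push Not at h8
      have := mul_nonneg h8 h7.le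
      linarith
    have h5 : |w y| = -(w y * sg) := by
      have h6 : |w y| = |w y * sg| := by rw [abs_mul, hsg1, mul_one]
      rw [h6, abs_of_neg h4]
    rw [h5] at h3
    have h6 : (c (g • y) : ℝ) = M := by
      have h7 : ((c (g • y) : ℝ) - M) * (w y * sg) = 0 := by linarith
      have := (mul_eq_zero.1 h7).resolve_right h4.ne
      linarith
    exact_mod_cast h6

/-- A nontrivial relation for a vector with one dominating pair gives a subgroup `J` between the
stabiliser of `x₁` and `G`, strictly larger than the stabiliser, that does not move `x₁` to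
`inv x₁`. -/
theorem dom_core [MulAction.IsPretransitive G R]
    (hinv : ∀ x, inv (inv x) = x) (hne : ∀ x, inv x ≠ x)
    (hG : ∀ (g : G) (x : R), g • inv x = inv (g • x))
    (w : R → ℝ) (c : R → ℤ) (hw : ∀ x, w (inv x) = -w x) (hc : ∀ x, c (inv x) = -c x)
    (hrel : ∀ g : G, ∑ x, (c x : ℝ) * w (g • x) = 0)
    (x₁ : R) (hx₁ : w x₁ ≠ 0) (hdom : ∑ x, |w x| ≤ 4 * |w x₁|) (hc0 : ∃ x, c x ≠ 0) :
    (∑ x, |w x| = 4 * |w x₁|) ∧
    ∃ J : Subgroup G, MulAction.stabilizer G x₁ ≤ J ∧ (∃ j ∈ J, j • x₁ ≠ x₁) ∧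
      ∀ j ∈ J, j • x₁ ≠ inv x₁ := by
  classical
  obtain ⟨x₀, hx₀⟩ := hc0
  obtain ⟨z, _, hz⟩ := Finset.exists_max_image (Finset.univ : Finset R) c ⟨x₀, Finset.mem_univ _⟩
  set M := c z with hMdef
  have hmax : ∀ x, c x ≤ M := fun x => hz x (Finset.mem_univ _)
  have hM : 0 < M := by
    rcases lt_or_gt_of_ne hx₀ with h | h
    · have := hmax (inv x₀)
      rw [hc] at this
      omega
    · have := hmax x₀
      omega
  obtain ⟨g₀, hg₀⟩ := MulAction.exists_smul_eq G x₁ z
  have hstep := fun (g : G) (hg : c (g • x₁) = M) =>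
    dom_step hinv hne hG w c hw hc hrel x₁ hx₁ hdom M hM hmax g hg
  have hg₀' : c (g₀ • x₁) = M := by rw [hg₀]
  have heq := (hstep g₀ hg₀').1
  refine ⟨heq, ?_⟩
  -- transfer along `y`
  have hiff : ∀ (y : R), y ≠ inv x₁ → w y * w x₁ < 0 → ∀ (h : G), h • x₁ = y → ∀ g : G,
      c (g • x₁) = M ↔ c ((g * h) • x₁) = M := by
    intro y hy1 hy2 h hh
    have _ : Fintype G := Fintype.ofFinite G
    set T : Finset G := Finset.univ.filter (fun g => c (g • x₁) = M) with hT
    have hsub : T.map (Equiv.mulRight h).toEmbedding ⊇ T.map (Equiv.mulRight h).toEmbedding :=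
      Finset.Subset.refl _
    have h1 : T ⊆ Finset.univ.filter (fun g => c ((g * h) • x₁) = M) := by
      intro g hg
      rw [hT, Finset.mem_filter] at hg
      rw [Finset.mem_filter]
      refine ⟨Finset.mem_univ _, ?_⟩
      rw [mul_smul, hh]
      exact (hstep g hg.2).2 y hy1 hy2
    have h2 : (Finset.univ.filter (fun g : G => c ((g * h) • x₁) = M)).card = T.card := by
      rw [hT]
      refine Finset.card_bij (fun g _ => g * h) ?_ ?_ ?_
      · intro g hg
        simpa using hg
      · intro a _ b _ hab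
        exact mul_right_cancel hab
      · intro b hb
        refine ⟨b * h⁻¹, ?_, by simp⟩
        simpa using hb
    have h3 := Finset.eq_of_subset_of_card_le h1 (by rw [h2])
    intro g
    have h4 : g ∈ T ↔ g ∈ Finset.univ.filter (fun g => c ((g * h) • x₁) = M) := by rw [← h3]
    simpa [hT] using h4
  let J : Subgroup G :=
    { carrier := {j | ∀ g : G, c (g • x₁) = M ↔ c ((g * j) • x₁) = M}
      mul_mem' := by
        intro a b ha hb g
        rw [ha g, hb (g * a), mul_assoc]
      one_mem' := by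
        intro g
        rw [mul_one]
      inv_mem' := by
        intro a ha g
        have := ha (g * a⁻¹)
        rw [inv_mul_cancel_right] at this
        exact this.symm }
  refine ⟨J, ?_, ?_, ?_⟩
  · intro s hs g
    rw [mul_smul, MulAction.mem_stabilizer_iff.1 hs]
  · -- there is `y` of opposite sign different from `inv x₁`
    have hy : ∃ y, y ≠ x₁ ∧ y ≠ inv x₁ ∧ w y ≠ 0 := by
      by_contra hno
      push Not at hno
      have h1 : ∑ x, |w x| = 2 * |w x₁| := by
        have h2 : ∀ z, |w z| = (if z = x₁ then |w x₁| else 0) +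
            (if z = inv x₁ then |w x₁| else 0) := by
          intro z
          by_cases h4 : z = x₁
          · rw [if_pos h4, if_neg (by rw [h4]; exact (hne x₁).symm), h4, add_zero]
          · by_cases h5 : z = inv x₁
            · rw [if_neg h4, if_pos h5, h5, hw, abs_neg, zero_add]
            · rw [if_neg h4, if_neg h5, hno z h4 h5]; simp
        rw [Finset.sum_congr rfl fun z _ => h2 z, Finset.sum_add_distrib, Finset.sum_ite_eq',
          Finset.sum_ite_eq']
        simp only [Finset.mem_univ, if_true]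
        ring
      rw [h1] at heq
      have : 0 < |w x₁| := abs_pos.2 hx₁
      linarith
    obtain ⟨y, hy1, hy2, hy3⟩ := hy
    obtain ⟨y', hy1', hy2', hy3'⟩ : ∃ y', y' ≠ x₁ ∧ y' ≠ inv x₁ ∧ w y' * w x₁ < 0 := by
      rcases lt_or_gt_of_ne (mul_ne_zero hy3 hx₁) with h | h
      · exact ⟨y, hy1, hy2, h⟩
      · refine ⟨inv y, fun h' => hy2 (by rw [← h', hinv]), fun h' => hy1 ?_, ?_⟩
        · have := congrArg inv h'
          rwa [hinv, hinv] at this
        · rw [hw]; linarith
    obtain ⟨h, hh⟩ := MulAction.exists_smul_eq G x₁ y'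
    exact ⟨h, hiff y' hy2' hy3' h hh, by rw [hh]; exact hy1'⟩
  · intro j hj h
    have h1 := (hj g₀).1 hg₀'
    rw [mul_smul, h, hG, hc, hg₀'] at h1
    omega

end comb

end Pool.Agent.H925R2
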