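import Mathlib
import Pool.Agent.H925R2.Rational
import Pool.Agent.H925R2.Quad
import Pool.Agent.H925R2.Dom

/-!
# Field theoretic part of the dominance theorem
-/

namespace Pool.Agent.H925R2

open Polynomial

/-- Two embeddings of a splitting field differ by an automorphism. -/
theorem exists_gal_of_embeddings {F : Type*} [Field F] {f : F[X]} {E : Type*} [Field E]
    [Algebra F E] (τ ψ : f.SplittingField →ₐ[F] E) : ∃ σ : f.Gal, ∀ z, ψ z = τ (σ z) := by
  let _ : Algebra f.SplittingField E := τ.toRingHom.toAlgebra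
  have _ : IsScalarTower F f.SplittingField E := IsScalarTower.of_algebraMap_eq fun x =>
    (τ.commutes x).symm
  have _ : Normal F f.SplittingField := Normal.of_isSplittingField f
  refine ⟨AlgEquiv.ofBijective (ψ.restrictNormal f.SplittingField)
    (AlgHom.normal_bijective F f.SplittingField f.SplittingField _), fun z => ?_⟩
  exact (ψ.restrictNormal_commutes f.SplittingField z).symm

theorem mem_of_fixes_fixed_aux {F E : Type*} [Field F] [Field E] [Algebra F E]
    [FiniteDimensional F E] [IsGalois F E]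
    (J : Subgroup (E ≃ₐ[F] E)) (c : E ≃ₐ[F] E)
    (h : ∀ z : E, (∀ j ∈ J, j z = z) → c z = z) : c ∈ J := by
  rw [← IntermediateField.fixingSubgroup_fixedField J, IntermediateField.mem_fixingSubgroup_iff]
  intro z hz
  exact h z fun j hj => (IntermediateField.mem_fixedField_iff J z).1 hz j hj

theorem mem_of_fixes_fixed {F : Type*} [Field F] {f : F[X]} (hsep : f.Separable)
    (J : Subgroup f.Gal) (c : f.Gal)
    (h : ∀ z : f.SplittingField, (∀ j ∈ J, j z = z) → c z = z) : c ∈ J := by
  have _ : IsGalois F f.SplittingField := IsGalois.of_separable_splitting_field hsep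
  exact mem_of_fixes_fixed_aux J c h

/-- A ring homomorphism from a splitting field to a field of characteristic zero maps
polynomial expressions to polynomial expressions. -/
theorem map_aeval_rat {E : Type*} [Field E] [Algebra ℚ E] (τ : E →+* ℂ) (x : E) (P : ℚ[X]) :
    τ (aeval x P) = aeval (τ x) P := by
  induction P using Polynomial.induction_on' with
  | add p r hp hr => rw [map_add, map_add, map_add, hp, hr]
  | monomial n a =>
    rw [aeval_monomial, aeval_monomial, map_mul, map_pow]
    congr 1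
    have : (τ.comp (algebraMap ℚ E)) = algebraMap ℚ ℂ := Subsingleton.elim _ _
    exact congrArg (fun h : ℚ →+* ℂ => h a) this

theorem aeval_mem_closure (π : ℂ) (P : ℚ[X]) : aeval π P ∈ Subfield.closure {π} := by
  induction P using Polynomial.induction_on' with
  | add p r hp hr => rw [map_add]; exact Subfield.add_mem _ hp hr
  | monomial n a =>
    rw [aeval_monomial]
    have h3 : algebraMap ℚ ℂ a = ((a : ℚ) : ℂ) := eq_ratCast (algebraMap ℚ ℂ) a
    rw [h3]
    have h4 : π ∈ Subfield.closure ({π} : Set ℂ) := Subfield.subset_closure (Set.mem_singleton π)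
    have h5 : π ^ n ∈ Subfield.closure ({π} : Set ℂ) := pow_mem h4 n
    have h6 : ((a : ℚ) : ℂ) ∈ Subfield.closure ({π} : Set ℂ) := SubfieldClass.ratCast_mem _ _
    exact mul_mem h6 h5

section

variable {f : ℚ[X]} (hf : Irreducible f) {q : ℚ} (hq : 0 < q)
  (hweil : ∀ z : ℂ, aeval z f = 0 → ‖z‖ ^ 2 = (q : ℝ))

/-- If every proper subfield of `ℚ(π)` is real, there is no group `J` as in the dominance
theorem. -/
theorem no_J (π : ℂ) (hπ : aeval π f = 0)
    (hsub : ∀ F : Subfield ℂ, F < Subfield.closure {π} → ∀ z ∈ F, z.im = 0)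
    (x₁ : f.rootSet f.SplittingField) (J : Subgroup f.Gal)
    (hJ1 : MulAction.stabilizer f.Gal x₁ ≤ J) (hJ2 : ∃ j ∈ J, j • x₁ ≠ x₁)
    (hJ3 : ∀ j ∈ J, j • x₁ ≠ rinv hf hq hweil x₁) : False := by
  classical
  have _ : MulAction.IsPretransitive f.Gal (f.rootSet f.SplittingField) := gal_pretransitive hf
  -- an embedding with `τ x₁ = π`
  let τ₀ : f.SplittingField →ₐ[ℚ] ℂ := IsAlgClosed.lift
  obtain ⟨y, hy⟩ := exists_root_eq hf τ₀ π hπ
  obtain ⟨g, hg⟩ := MulAction.exists_smul_eq f.Gal x₁ y
  obtain ⟨τ, hτ⟩ : ∃ τ : f.SplittingField →ₐ[ℚ] ℂ, τ x₁.1 = π := by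
    let g' : f.SplittingField →ₐ[ℚ] f.SplittingField := (g : f.SplittingField →+* f.SplittingField).toRatAlgHom
    refine ⟨τ₀.comp g', ?_⟩
    have h1 : g' x₁.1 = y.1 := by
      have := congrArg Subtype.val hg
      rw [smul_coe] at this
      exact this
    rw [AlgHom.comp_apply, h1, hy]
  -- complex conjugation
  let cc : ℂ →ₐ[ℚ] ℂ := ((Complex.conjAe.restrictScalars ℚ : ℂ ≃ₐ[ℚ] ℂ) : ℂ →ₐ[ℚ] ℂ)
  obtain ⟨c, hc⟩ := exists_gal_of_embeddings τ (cc.comp τ)
  have hc' : ∀ z : f.SplittingField, starRingEnd ℂ (τ z) = τ (c z) := hc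
  have hcx : c • x₁ = rinv hf hq hweil x₁ := by
    apply Subtype.ext
    rw [smul_coe, rinv_coe]
    apply (τ : f.SplittingField →+* ℂ).injective
    have h1 : aeval (τ x₁.1) f = 0 := by rw [hτ]; exact hπ
    have hx0 : τ x₁.1 ≠ 0 := fun h =>
      root_ne_zero hq hweil x₁.1 ((mem_rootSet.1 x₁.2).2) ((map_eq_zero τ).1 h)
    have h2 : τ (c x₁.1) = τ ((q : f.SplittingField) / x₁.1) := by
      rw [← hc', map_div₀, map_ratCast, eq_div_iff hx0, mul_comm, Complex.mul_conj,
        Complex.normSq_eq_norm_sq, hweil _ h1]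
      simp
    exact h2
  -- the fixed field of `J`
  let F₀ : Subfield f.SplittingField :=
    { carrier := {z | ∀ j ∈ J, j z = z}
      mul_mem' := by
        intro a b ha hb j hj
        rw [map_mul, ha j hj, hb j hj]
      one_mem' := by
        intro j hj
        rw [map_one]
      add_mem' := by
        intro a b ha hb j hj
        rw [map_add, ha j hj, hb j hj]
      zero_mem' := by
        intro j hj
        rw [map_zero]
      neg_mem' := by
        intro a ha j hj
        rw [map_neg, ha j hj]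
      inv_mem' := by
        intro a ha j hj
        rw [map_inv₀, ha j hj] }
  have hF₀ : ∀ z, z ∈ F₀ ↔ ∀ j ∈ J, j z = z := fun z => Iff.rfl
  obtain ⟨τR, hτR⟩ : ∃ τR : f.SplittingField →+* ℂ, ∀ z, τR z = τ z := ⟨τ.toRingHom, fun z => rfl⟩
  have hle : F₀.map τR ≤ Subfield.closure {π} := by
    rintro _ ⟨z, hz, rfl⟩
    obtain ⟨P, hP⟩ := exists_aeval_of_fixed hf.separable x₁.1 z (by
      intro g hg
      apply hz g
      apply hJ1
      exact MulAction.mem_stabilizer_iff.2 (Subtype.ext hg))
    have h1 : τR z = aeval π P := by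
      have h2 := map_aeval_rat τR x₁.1 P
      rw [hτR x₁.1, hτ] at h2
      rw [← h2]
      exact congrArg τR hP.symm
    rw [h1]
    exact aeval_mem_closure π P
  have hlt : F₀.map τR < Subfield.closure {π} := by
    refine lt_of_le_of_ne hle fun heq => ?_
    have h1 : π ∈ F₀.map τR := by
      rw [heq]; exact Subfield.subset_closure rfl
    obtain ⟨z, hz, hzπ⟩ := h1
    have h2 : z = x₁.1 := by
      apply τR.injective
      rw [hzπ, hτR, hτ]
    obtain ⟨j, hj, hjx⟩ := hJ2
    apply hjx
    apply Subtype.ext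
    rw [smul_coe, ← h2]
    exact hz j hj
  have hreal := hsub _ hlt
  -- complex conjugation fixes the fixed field of `J`
  have hcJ : c ∈ J := by
    apply mem_of_fixes_fixed hf.separable J c
    intro z hz
    have h1 := hreal (τR z) ⟨z, hz, rfl⟩
    have h2 : starRingEnd ℂ (τ z) = τ z := by
      rw [← hτR]
      exact Complex.conj_eq_iff_im.2 h1
    rw [hc'] at h2
    apply τR.injective
    rw [hτR, hτR, h2]
  exact hJ3 c hcJ hcx

end

end Pool.Agent.H925R2
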