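import Mathlib

/-!
# Invariant multilinear forms from balanced multiplicative relations
-/

namespace Pool.Agent.H925R2

/-- A family of nonzero, non self-inverse elements in which `y` and `y⁻¹` occur equally often
admits a perfect matching of the indices into pairs of mutually inverse elements. -/
theorem exists_matching {n : ℕ} {Ω : Type*} [Field Ω] [DecidableEq Ω] (μ : Fin n → Ω)
    (hne : ∀ k, (μ k)⁻¹ ≠ μ k)
    (hbal : ∀ y : Ω, Fintype.card {k // μ k = y} = Fintype.card {k // μ k = y⁻¹}) :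
    ∃ τ : Equiv.Perm (Fin n), (∀ k, τ (τ k) = k) ∧ (∀ k, τ k ≠ k) ∧
      ∀ k, μ (τ k) = (μ k)⁻¹ := by
  classical
  have he : ∀ y : Ω, Nonempty ({k // μ k = y} ≃ {k // (μ k)⁻¹ = y}) := by
    intro y
    refine ⟨Fintype.equivOfCardEq ?_⟩
    rw [hbal y]
    refine Fintype.card_congr (Equiv.subtypeEquivRight fun k => ?_)
    rw [inv_eq_iff_eq_inv]
  let σ : Equiv.Perm (Fin n) := Equiv.ofFiberEquiv (f := μ) (g := fun k => (μ k)⁻¹)
    (fun y => (he y).some)
  have hσ : ∀ k, (μ (σ k))⁻¹ = μ k := fun k =>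
    Equiv.ofFiberEquiv_map (f := μ) (g := fun k => (μ k)⁻¹) (fun y => (he y).some) k
  have hσ1 : ∀ k, μ (σ k) = (μ k)⁻¹ := fun k => by rw [← hσ k, inv_inv]
  have hσ2 : ∀ k, μ (σ.symm k) = (μ k)⁻¹ := fun k => by
    rw [← hσ (σ.symm k), Equiv.apply_symm_apply]
  let P : Ω → Prop := fun y => WellOrderingRel y y⁻¹
  have hP1 : ∀ k, P (μ k) → ¬ P (μ k)⁻¹ := by
    intro k h1 h2
    change WellOrderingRel _ _ at h1
    change WellOrderingRel _ _ at h2
    rw [inv_inv] at h2
    exact asymm_of WellOrderingRel h1 h2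
  have hP2 : ∀ k, ¬ P (μ k) → P (μ k)⁻¹ := by
    intro k h1
    change ¬ WellOrderingRel _ _ at h1
    change WellOrderingRel _ _
    rw [inv_inv]
    rcases trichotomous_of WellOrderingRel (μ k) (μ k)⁻¹ with h | h | h
    · exact absurd h h1
    · exact absurd h.symm (hne k)
    · exact h
  let t : Fin n → Fin n := fun k => if P (μ k) then σ k else σ.symm k
  have ht1 : ∀ k, P (μ k) → t k = σ k := fun k h => if_pos h
  have ht2 : ∀ k, ¬ P (μ k) → t k = σ.symm k := fun k h => if_neg h
  have hμt : ∀ k, μ (t k) = (μ k)⁻¹ := by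
    intro k
    by_cases h : P (μ k)
    · rw [ht1 k h, hσ1]
    · rw [ht2 k h, hσ2]
  have htt : ∀ k, t (t k) = k := by
    intro k
    by_cases h : P (μ k)
    · have h1 : ¬ P (μ (t k)) := by rw [hμt]; exact hP1 k h
      rw [ht2 _ h1, ht1 k h, Equiv.symm_apply_apply]
    · have h1 : P (μ (t k)) := by rw [hμt]; exact hP2 k h
      rw [ht1 _ h1, ht2 k h, Equiv.apply_symm_apply]
  refine ⟨⟨t, t, htt, htt⟩, htt, ?_, hμt⟩
  intro k h
  apply hne k
  rw [← hμt k]
  exact congrArg μ h

/-- A basis of eigenvectors. -/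
theorem exists_eigenbasis {Ω : Type*} [Field Ω] {V : Type*} [AddCommGroup V] [Module Ω V]
    [FiniteDimensional Ω V] (F : V →ₗ[Ω] V) (E : Set Ω)
    (hF : Submodule.span Ω {v : V | ∃ μ : Ω, μ ∈ E ∧ F v = μ • v} = ⊤) :
    ∃ (d : ℕ) (b : Module.Basis (Fin d) Ω V) (μ : Fin d → Ω),
      (∀ i, μ i ∈ E) ∧ ∀ i, F (b i) = μ i • b i := by
  obtain ⟨s, hs1, hs2, hs3⟩ := exists_linearIndependent Ω {v : V | ∃ μ : Ω, μ ∈ E ∧ F v = μ • v}
  rw [hF] at hs2
  let b' : Module.Basis s Ω V := Module.Basis.mk hs3 (by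
    rw [Subtype.range_coe, hs2])
  have _ : Fintype s := Module.Basis.fintypeIndexOfRankLtAleph0 b' (Module.rank_lt_aleph0 Ω V)
  let b := b'.reindex (Fintype.equivFin s)
  have hb : ∀ i, b i ∈ {v : V | ∃ μ : Ω, μ ∈ E ∧ F v = μ • v} := by
    intro i
    apply hs1
    have : b i = ((Fintype.equivFin s).symm i : V) := by
      simp [b, b']
    rw [this]
    exact Subtype.coe_prop _
  choose μ hμ1 hμ2 using hb
  exact ⟨_, b, μ, hμ1, hμ2⟩

/-- If all multiplicative relations among the eigenvalues are balanced, all `F ^ s`-invariant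
multilinear forms are combinations of products of `F`-invariant bilinear forms. -/
theorem multilinear_of_balanced {Ω : Type*} [Field Ω] [DecidableEq Ω] {V : Type*} [AddCommGroup V]
    [Module Ω V] [FiniteDimensional Ω V] (F : V →ₗ[Ω] V) (E : Set Ω)
    (hE : ∀ y ∈ E, y ≠ 0 ∧ y⁻¹ ≠ y)
    (hF : Submodule.span Ω {v : V | ∃ μ : Ω, μ ∈ E ∧ F v = μ • v} = ⊤)
    (n s : ℕ)
    (hbal : ∀ L : List Ω, L.length = n → (∀ y ∈ L, y ∈ E) → L.prod ^ s = 1 →
      ∀ y ∈ E, L.count y = L.count y⁻¹)
    (hEinv : ∀ y ∈ E, y⁻¹ ∈ E)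
    (φ : MultilinearMap Ω (fun _ : Fin n => V) Ω)
    (hφ : ∀ v : Fin n → V, φ (fun i => (F ^ s) (v i)) = φ v) :
    φ ∈ Submodule.span Ω {ψ : MultilinearMap Ω (fun _ : Fin n => V) Ω |
      ∃ (τ : Equiv.Perm (Fin n)) (B : Fin n → V →ₗ[Ω] V →ₗ[Ω] Ω),
        (∀ i, τ (τ i) = i) ∧ (∀ i, τ i ≠ i) ∧ (∀ i x y, B i (F x) (F y) = B i x y) ∧
        ∀ v, ψ v = ∏ i with i < τ i, B i (v i) (v (τ i))} := by
  classical
  obtain ⟨d, b, μ, hμE, hμ⟩ := exists_eigenbasis F E hF
  let cp : (Fin n → Fin d) → MultilinearMap Ω (fun _ : Fin n => V) Ω := fun I =>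
    (MultilinearMap.mkPiAlgebra Ω (Fin n) Ω).compLinearMap (fun k => b.coord (I k))
  have hcp : ∀ I v, cp I v = ∏ k, b.coord (I k) (v k) := by
    intro I v
    change (MultilinearMap.mkPiAlgebra Ω (Fin n) Ω) (fun k => b.coord (I k) (v k)) = _
    rw [MultilinearMap.mkPiAlgebra_apply]
  -- expansion of `φ`
  have hexp : φ = ∑ I : Fin n → Fin d, φ (fun k => b (I k)) • cp I := by
    apply Module.Basis.ext_multilinear (fun _ => b)
    intro J
    rw [MultilinearMap.sum_apply, Finset.sum_eq_single J]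
    · rw [MultilinearMap.smul_apply, hcp]
      have h1 : ∏ k, b.coord (J k) (b (J k)) = 1 := by
        apply Finset.prod_eq_one
        intro k _
        simp
      rw [h1, smul_eq_mul, mul_one]
    · intro I _ hI
      rw [MultilinearMap.smul_apply, hcp]
      obtain ⟨k, hk⟩ := Function.ne_iff.1 hI
      have h1 : ∏ k, b.coord (I k) (b (J k)) = 0 := by
        apply Finset.prod_eq_zero (Finset.mem_univ k)
        rw [Module.Basis.coord_apply, Module.Basis.repr_self, Finsupp.single_apply,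
          if_neg (fun h => hk h.symm)]
      rw [h1, smul_zero]
    · intro h
      exact absurd (Finset.mem_univ J) h
  rw [hexp]
  refine Submodule.sum_mem _ fun I _ => ?_
  by_cases h0 : φ (fun k => b (I k)) = 0
  · rw [h0, zero_smul]
    exact Submodule.zero_mem _
  refine Submodule.smul_mem _ _ (Submodule.subset_span ?_)
  -- the multiplicative relation
  have hFs : ∀ i, (F ^ s) (b i) = μ i ^ s • b i := by
    intro i
    clear hφ hbal
    induction s with
    | zero => simp
    | succ t ih => rw [pow_succ', Module.End.mul_apply, ih, map_smul, hμ, smul_smul, pow_succ]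
  have hprod : (∏ k, μ (I k)) ^ s = 1 := by
    have h1 := hφ (fun k => b (I k))
    have h2 : (fun k => (F ^ s) (b (I k))) = fun k => (μ (I k) ^ s) • b (I k) :=
      funext fun k => hFs (I k)
    rw [h2, MultilinearMap.map_smul_univ, smul_eq_mul, Finset.prod_pow] at h1
    exact mul_right_cancel₀ h0 (h1.trans (one_mul _).symm)
  set M : Multiset Ω := (Finset.univ : Finset (Fin n)).val.map (fun k => μ (I k)) with hM
  have hcount : ∀ y, M.toList.count y = Fintype.card {k // μ (I k) = y} := by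
    intro y
    rw [← Multiset.coe_count, Multiset.coe_toList, hM, Multiset.count_map, Fintype.card_subtype]
    rw [Finset.card_def, Finset.filter_val]
    congr 1
    exact Multiset.filter_congr fun k _ => eq_comm
  have hbal' := hbal M.toList (by rw [Multiset.length_toList, hM]; simp) (by
    intro y hy
    rw [Multiset.mem_toList, hM, Multiset.mem_map] at hy
    obtain ⟨k, _, rfl⟩ := hy
    exact hμE _) (by
    rw [Multiset.prod_toList, hM]
    exact hprod)
  obtain ⟨τ, hτ1, hτ2, hτ3⟩ := exists_matching (fun k => μ (I k)) (fun k => (hE _ (hμE _)).2) (by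
    intro y
    by_cases hy : y ∈ E
    · rw [← hcount, ← hcount]
      exact hbal' y hy
    · have h1 : IsEmpty {k // μ (I k) = y} := ⟨fun k => hy (k.2 ▸ hμE _)⟩
      have h2 : IsEmpty {k // μ (I k) = y⁻¹} :=
        ⟨fun k => hy (by rw [← inv_inv y]; exact hEinv _ (k.2 ▸ hμE _))⟩
      rw [Fintype.card_eq_zero, Fintype.card_eq_zero])
  have hcoord : ∀ i x, b.coord i (F x) = μ i * b.coord i x := by
    intro i x
    have h1 : (b.coord i).comp F = μ i • b.coord i := by
      apply b.ext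
      intro j
      rw [LinearMap.comp_apply, hμ, map_smul, LinearMap.smul_apply, Module.Basis.coord_apply,
        Module.Basis.repr_self, Finsupp.single_apply]
      by_cases h : j = i
      · rw [h]
      · rw [if_neg h, smul_zero, smul_zero]
    exact congrArg (fun f : V →ₗ[Ω] Ω => f x) h1
  refine ⟨τ, fun k => (LinearMap.mul Ω Ω).compl₁₂ (b.coord (I k)) (b.coord (I (τ k))), hτ1, hτ2,
    ?_, ?_⟩
  · intro k x y
    simp only [LinearMap.compl₁₂_apply, LinearMap.mul_apply', hcoord, hτ3]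
    have := (hE _ (hμE (I k))).1
    field_simp
  · intro v
    rw [hcp]
    simp only [LinearMap.compl₁₂_apply, LinearMap.mul_apply']
    rw [Finset.prod_mul_distrib]
    have h1 : ∏ k with k < τ k, b.coord (I (τ k)) (v (τ k)) =
        ∏ k with ¬ k < τ k, b.coord (I k) (v k) := by
      refine Finset.prod_bij' (fun k _ => τ k) (fun k _ => τ k) ?_ ?_ (fun k _ => hτ1 k)
        (fun k _ => hτ1 k) (fun k _ => rfl)
      · intro k hk
        simp only [Finset.mem_filter, Finset.mem_univ, true_and] at hk ⊢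
        rw [hτ1]
        exact hk.asymm
      · intro k hk
        simp only [Finset.mem_filter, Finset.mem_univ, true_and] at hk ⊢
        rw [hτ1]
        exact lt_of_le_of_ne (not_lt.1 hk) (hτ2 k)
    rw [h1, Finset.prod_filter_mul_prod_filter_not]

end Pool.Agent.H925R2
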