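import Mathlib
import Pool.Agent.H925R2.Rational
import Pool.Agent.H925R2.Multi

/-!
# Wrapper: from the absence of relations to invariant multilinear forms, weight zero case
-/

namespace Pool.Agent.H925R2

open Polynomial

theorem dev_one (p : ℕ) [Fact p.Prime] (α : PadicAlgCl p) :
    dev p (1 : ℚ) α = 2 * Real.log ‖α‖ := by
  unfold dev
  have h : ‖(((1 : ℚ)) : PadicAlgCl p)‖ = 1 := by
    rw [Rat.cast_one, norm_one]
  rw [h, Real.log_one, sub_zero]

theorem weil_one {f : ℚ[X]} (hunit : ∀ z : ℂ, aeval z f = 0 → ‖z‖ = 1) :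
    ∀ z : ℂ, aeval z f = 0 → ‖z‖ ^ 2 = ((1 : ℚ) : ℝ) := by
  intro z hz
  rw [hunit z hz]
  simp

theorem multi_of_norel (p : ℕ) [Fact p.Prime] {f : ℚ[X]} (hf : Irreducible f)
    (hunit : ∀ z : ℂ, aeval z f = 0 → ‖z‖ = 1)
    (hns : ∃ α : PadicAlgCl p, aeval α f = 0 ∧ dev p (1 : ℚ) α ≠ 0)
    (e : f.SplittingField →ₐ[ℚ] PadicAlgCl p)
    (hno : ∀ c : f.rootSet f.SplittingField → ℤ,
      (∀ x, c (rinv hf one_pos (weil_one hunit) x) = - c x) →
      (∀ g : f.Gal, ∑ x : f.rootSet f.SplittingField, (c x : ℝ) *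
        dev p 1 (e (g • x : f.rootSet f.SplittingField).1) = 0) → ∀ x, c x = 0)
    {Ω : Type*} [Field Ω] [IsAlgClosed Ω] [CharZero Ω]
    {V : Type*} [AddCommGroup V] [Module Ω V] [FiniteDimensional Ω V] (F : V →ₗ[Ω] V)
    (hF : Submodule.span Ω {v : V | ∃ μ : Ω, aeval μ f = 0 ∧ F v = μ • v} = ⊤)
    (n s : ℕ) (hs : 0 < s)
    (φ : MultilinearMap Ω (fun _ : Fin n => V) Ω)
    (hφ : ∀ v : Fin n → V, φ (fun i => (F ^ s) (v i)) = φ v) :
    φ ∈ Submodule.span Ω {ψ : MultilinearMap Ω (fun _ : Fin n => V) Ω |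
      ∃ (τ : Equiv.Perm (Fin n)) (B : Fin n → V →ₗ[Ω] V →ₗ[Ω] Ω),
        (∀ i, τ (τ i) = i) ∧ (∀ i, τ i ≠ i) ∧ (∀ i x y, B i (F x) (F y) = B i x y) ∧
        ∀ v, ψ v = ∏ i with i < τ i, B i (v i) (v (τ i))} := by
  classical
  have h1Ω : ((1 : ℚ) : Ω) = 1 := Rat.cast_one
  have hroot : ∀ y : Ω, aeval y f = 0 → y ≠ 0 ∧ y⁻¹ ≠ y ∧ aeval y⁻¹ f = 0 := by
    intro y hy
    let j : f.SplittingField →ₐ[ℚ] Ω := IsAlgClosed.lift
    obtain ⟨z, rfl⟩ := exists_root_eq hf j y hy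
    have hz := (mem_rootSet.1 z.2).2
    have h2 : (j z.1)⁻¹ = j (rinv hf one_pos (weil_one hunit) z).1 := by
      rw [rinv_coe, map_div₀, map_ratCast, h1Ω, one_div]
    refine ⟨fun h => root_ne_zero one_pos (weil_one hunit) z.1 hz ((map_eq_zero j).1 h),
      fun h => ?_, ?_⟩
    · rw [h2] at h
      exact rinv_ne_of_dev hf one_pos (weil_one hunit) p e hns z (Subtype.ext (j.injective h))
    · rw [h2, aeval_algHom_apply, (mem_rootSet.1 (rinv hf one_pos (weil_one hunit) z).2).2,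
        map_zero]
  refine multilinear_of_balanced F {μ : Ω | aeval μ f = 0} (fun y hy => ⟨(hroot y hy).1,
    (hroot y hy).2.1⟩) hF n s ?_ (fun y hy => (hroot y hy).2.2) φ hφ
  intro L hlen hL hprod y hy
  have h3 := balanced_of_norel hf one_pos (weil_one hunit) p e hno (L ++ L) n s hs
    (by rw [List.length_append, hlen]; ring)
    (fun z hz => hL z ((List.mem_append.1 hz).elim id id))
    (by rw [List.prod_append, mul_pow, hprod, h1Ω]; simp) y hy
  rw [List.count_append, List.count_append, h1Ω, one_div] at h3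
  omega

end Pool.Agent.H925R2
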