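import Mathlib
import Pool.Agent.H925R2.AV

/-!
# Counting odd deviations
-/

namespace Pool.Agent.H925R2

open Polynomial

/-- If the number of roots with odd `U` is not divisible by four, half sums are odd. -/
theorem half_sum_odd (p : ℕ) [Fact p.Prime] {f : ℚ[X]} (hf : f ≠ 0) {q : ℚ} (hq : q ≠ 0)
    (hf0 : ∀ α : PadicAlgCl p, aeval α f = 0 → α ≠ 0)
    (hinv : ∀ α : PadicAlgCl p, aeval α f = 0 → aeval ((q : PadicAlgCl p) / α) f = 0)
    (U : PadicAlgCl p → ℤ)
    (hU : ∀ α : PadicAlgCl p, aeval α f = 0 → U ((q : PadicAlgCl p) / α) = - U α)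
    (hodd : ¬ 4 ∣ Set.ncard {α : PadicAlgCl p | aeval α f = 0 ∧ Odd (U α)})
    (Φ : Finset (PadicAlgCl p)) (hΦ1 : ∀ α ∈ Φ, aeval α f = 0)
    (hΦ2 : ∀ α, aeval α f = 0 → (α ∈ Φ ↔ (q : PadicAlgCl p) / α ∉ Φ)) :
    ¬ (2 : ℤ) ∣ ∑ α ∈ Φ, U α := by
  classical
  intro hdvd
  apply hodd
  have hq' : (q : PadicAlgCl p) ≠ 0 := by exact_mod_cast hq
  have hii : ∀ α : PadicAlgCl p, α ≠ 0 → (q : PadicAlgCl p) / ((q : PadicAlgCl p) / α) = α := by
    intro α hα
    field_simp
  set A := Φ.filter (fun α => Odd (U α)) with hA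
  have h1 : {α : PadicAlgCl p | aeval α f = 0 ∧ Odd (U α)} =
      ((A ∪ A.image (fun α => (q : PadicAlgCl p) / α) : Finset (PadicAlgCl p)) :
        Set (PadicAlgCl p)) := by
    ext α
    simp only [Set.mem_ofPred_eq, Finset.coe_union, Finset.coe_image, Set.mem_union,
      Finset.mem_coe, Set.mem_image, hA, Finset.mem_filter]
    constructor
    · rintro ⟨hα, hodd'⟩
      by_cases h : α ∈ Φ
      · exact Or.inl ⟨h, hodd'⟩
      · right
        have h2 : (q : PadicAlgCl p) / α ∈ Φ := by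
          by_contra h3
          exact h ((hΦ2 α hα).2 h3)
        refine ⟨(q : PadicAlgCl p) / α, ⟨h2, ?_⟩, hii α (hf0 α hα)⟩
        rw [hU α hα]
        exact hodd'.neg
    · rintro (⟨h, hodd'⟩ | ⟨β, ⟨hβ, hodd'⟩, rfl⟩)
      · exact ⟨hΦ1 α h, hodd'⟩
      · refine ⟨hinv β (hΦ1 β hβ), ?_⟩
        rw [hU β (hΦ1 β hβ)]
        exact hodd'.neg
  have hdisj : Disjoint A (A.image (fun α => (q : PadicAlgCl p) / α)) := by
    rw [Finset.disjoint_left]
    rintro α hα hα'
    obtain ⟨β, hβ, rfl⟩ := Finset.mem_image.1 hα'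
    have h2 := (Finset.mem_filter.1 hα).1
    have h3 := (Finset.mem_filter.1 hβ).1
    exact ((hΦ2 β (hΦ1 β h3)).1 h3) h2
  have hcard : (A.image (fun α => (q : PadicAlgCl p) / α)).card = A.card := by
    apply Finset.card_image_of_injOn
    intro α hα β hβ h
    have h2 := hf0 α (hΦ1 α (Finset.mem_filter.1 hα).1)
    have h3 := hf0 β (hΦ1 β (Finset.mem_filter.1 hβ).1)
    rw [← hii α h2, ← hii β h3]
    exact congrArg (fun t => (q : PadicAlgCl p) / t) h
  rw [h1, Set.ncard_coe_finset, Finset.card_union_of_disjoint hdisj, hcard]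
  have heven : Even A.card := by
    have h2 : (∑ α ∈ Φ, U α) % 2 = (A.card : ℤ) % 2 := by
      rw [hA, Finset.card_filter]
      push_cast
      rw [Finset.sum_int_mod, Finset.sum_int_mod (f := fun α => if Odd (U α) then (1 : ℤ) else 0)]
      congr 1
      refine Finset.sum_congr rfl fun α _ => ?_
      by_cases h : Odd (U α)
      · rw [if_pos h, Int.odd_iff.1 h]; rfl
      · rw [if_neg h, Int.even_iff.1 (Int.not_odd_iff_even.1 h)]; rfl
    rw [Nat.even_iff]
    omega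
  obtain ⟨t, ht⟩ := heven
  exact ⟨t, by omega⟩

end Pool.Agent.H925R2
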